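import Mathlib

/-!
# Mean values of powers of sums of nonnegative periodic functions, almost independent by shifts
-/

set_option autoImplicit false

open Finset

namespace Pool.Agent.V8H10.EX

/-- periodic functions: sums over multiples of the period -/
lemma sum_mul_period (Φ : ℕ → ℝ) (L : ℕ) (hΦ : ∀ n, Φ (n + L) = Φ n) (M : ℕ) :
    ∑ n ∈ range (L * M), Φ n = M * ∑ n ∈ range L, Φ n := by
  have hΦ' : ∀ M n, Φ (L * M + n) = Φ n := by
    intro M
    induction M with
    | zero => intro n; simp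
    | succ M ih =>
      intro n
      have : L * (M + 1) + n = (L * M + n) + L := by ring
      rw [this, hΦ, ih]
  induction M with
  | zero => simp
  | succ M ih =>
    rw [Nat.mul_succ, Finset.sum_range_add, ih]
    simp_rw [hΦ']
    push_cast
    ring

/-- shift invariance of the sum over a full period -/
lemma sum_shift (Φ : ℕ → ℝ) (L : ℕ) (hΦ : ∀ n, Φ (n + L) = Φ n) (a : ℕ) :
    ∑ n ∈ range L, Φ (n + a) = ∑ n ∈ range L, Φ n := by
  induction a with
  | zero => simp
  | succ a ih =>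
    have h1 := Finset.sum_range_succ' (fun n => Φ (n + a)) L
    have h2 := Finset.sum_range_succ (fun n => Φ (n + a)) L
    have h3 : Φ (L + a) = Φ (0 + a) := by
      have h4 : L + a = (0 + a) + L := by ring
      rw [h4, hΦ]
    have h5 : ∑ n ∈ range L, Φ (n + (a + 1)) = ∑ n ∈ range L, Φ (n + 1 + a) := by
      refine Finset.sum_congr rfl fun n _ => ?_
      congr 1
      ring
    rw [h5, ← ih]
    rw [h2] at h1
    linarith

/-- a nonnegative periodic function on an initial segment -/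
lemma block (Φ : ℕ → ℝ) (L Lam N : ℕ) (h0 : ∀ n, 0 ≤ Φ n) (hL : 1 ≤ L) (hLam : 1 ≤ Lam)
    (hLL : L ∣ Lam) (hLN : L ≤ N) (hΦ : ∀ n, Φ (n + L) = Φ n) :
    ∑ n ∈ range N, Φ n ≤ 2 * N / Lam * ∑ n ∈ range Lam, Φ n := by
  obtain ⟨M, rfl⟩ := hLL
  have hM : 1 ≤ M := by
    rcases Nat.eq_zero_or_pos M with h | h
    · subst h; simp at hLam
    · exact h
  have hLr : (0 : ℝ) < L := by exact_mod_cast hL
  have hMr : (0 : ℝ) < M := by exact_mod_cast hM
  set σ := ∑ n ∈ range L, Φ n with hσ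
  have hσ0 : 0 ≤ σ := Finset.sum_nonneg fun n _ => h0 n
  have h1 : ∑ n ∈ range N, Φ n ≤ ((N / L + 1 : ℕ) : ℝ) * σ := by
    rw [hσ, ← sum_mul_period Φ L hΦ]
    apply Finset.sum_le_sum_of_subset_of_nonneg
    · apply Finset.range_subset_range.2
      have := Nat.div_add_mod N L
      have := Nat.mod_lt N hL
      nlinarith
    · intro n _ _
      exact h0 n
  have h2 : ((N / L + 1 : ℕ) : ℝ) ≤ 2 * N / L := by
    have h3 : ((N / L : ℕ) : ℝ) ≤ (N : ℝ) / L := Nat.cast_div_le
    have h4 : (1 : ℝ) ≤ (N : ℝ) / L := by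
      rw [le_div_iff₀ hLr, one_mul]
      exact_mod_cast hLN
    push_cast
    have h5 : 2 * (N : ℝ) / L = (N : ℝ) / L + (N : ℝ) / L := by ring
    linarith
  rw [sum_mul_period Φ L hΦ]
  refine h1.trans ((mul_le_mul_of_nonneg_right h2 hσ0).trans (le_of_eq ?_))
  rw [← hσ]
  push_cast
  field_simp

/-- The data: nonnegative functions `F p ≤ 2` of period `T p`, and primes `ℓ p`. -/
structure Sys (P : Finset ℕ) (F : ℕ → ℕ → ℝ) (T ell : ℕ → ℕ) (y s : ℕ) (δ : ℝ) : Prop where
  nonneg : ∀ p ∈ P, ∀ n, 0 ≤ F p n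
  le_two : ∀ p ∈ P, ∀ n, F p n ≤ 2
  T_pos : ∀ p ∈ P, 1 ≤ T p
  T_le : ∀ p ∈ P, T p ≤ y
  per : ∀ p ∈ P, ∀ n, F p (n + T p) = F p n
  ell_prime : ∀ p ∈ P, (ell p).Prime
  ell_dvd : ∀ p ∈ P, ell p ∣ T p
  ell_uniq : ∀ p ∈ P, ∀ q ∈ P, ell p ∣ T q → ell p = ell q
  mean : ∀ p ∈ P, ∀ w n : ℕ, ¬ ell p ∣ w →
    ∑ m ∈ range (ell p), F p (n + m * (T p / ell p * w)) ≤ (1 + δ) * ell p
  cls : ∀ q ∈ P, (P.filter (fun p => ell p = ell q)).card ≤ s
  δ_nonneg : 0 ≤ δ

variable {P : Finset ℕ} {F : ℕ → ℕ → ℝ} {T ell : ℕ → ℕ} {y s : ℕ} {δ : ℝ}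

lemma prod_nonneg' (h : Sys P F T ell y s δ) (r : List ℕ) (hr : ∀ q ∈ r, q ∈ P) (n : ℕ) :
    0 ≤ (r.map (fun q => F q n)).prod := by
  apply List.prod_nonneg
  intro a ha
  obtain ⟨q, hq, rfl⟩ := List.mem_map.1 ha
  exact h.nonneg q (hr q hq) n

lemma per_mul (h : Sys P F T ell y s δ) {p : ℕ} (hp : p ∈ P) (c n : ℕ) :
    F p (n + c * T p) = F p n := by
  induction c with
  | zero => simp
  | succ c ih =>
    have : n + (c + 1) * T p = (n + c * T p) + T p := by ring
    rw [this, h.per p hp, ih]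

lemma per_dvd (h : Sys P F T ell y s δ) {p : ℕ} (hp : p ∈ P) {H : ℕ} (hH : T p ∣ H) (n : ℕ) :
    F p (n + H) = F p n := by
  obtain ⟨c, rfl⟩ := hH
  rw [mul_comm]
  exact per_mul h hp c n

lemma prod_per (h : Sys P F T ell y s δ) (r : List ℕ) (hr : ∀ q ∈ r, q ∈ P) {H : ℕ}
    (hH : ∀ q ∈ r, T q ∣ H) (n : ℕ) :
    (r.map (fun q => F q (n + H))).prod = (r.map (fun q => F q n)).prod := by
  congr 1
  apply List.map_congr_left
  intro q hq
  exact per_dvd h (hr q hq) (hH q hq) n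

/-- a new class -/
lemma new_class (h : Sys P F T ell y s δ) {Lam : ℕ} (hLam : ∀ p ∈ P, T p ∣ Lam) {p : ℕ} (hp : p ∈ P)
    (r : List ℕ) (hr : ∀ q ∈ r, q ∈ P) (hnew : ∀ q ∈ r, ell p ≠ ell q) :
    ∑ n ∈ range Lam, F p n * (r.map (fun q => F q n)).prod ≤
      (1 + δ) * ∑ n ∈ range Lam, (r.map (fun q => F q n)).prod := by
  set R : ℕ → ℝ := fun n => (r.map (fun q => F q n)).prod with hR
  set w : ℕ := (r.map T).prod with hw
  have hlp := h.ell_prime p hp
  have hl0 : (0 : ℝ) < ell p := by exact_mod_cast hlp.pos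
  have hwl : ¬ ell p ∣ w := by
    intro hd
    rw [hw, hlp.prime.dvd_prod_iff] at hd
    obtain ⟨a, ha, hda⟩ := hd
    obtain ⟨q, hq, rfl⟩ := List.mem_map.1 ha
    exact hnew q hq (h.ell_uniq p hp q (hr q hq) hda)
  have hTw : ∀ q ∈ r, T q ∣ w := by
    intro q hq
    exact List.dvd_prod (List.mem_map_of_mem hq)
  set H : ℕ := T p / ell p * w with hH
  have hRH : ∀ m n : ℕ, R (n + m * H) = R n := by
    intro m n
    apply prod_per h r hr
    intro q hq
    exact (((hTw q hq).mul_left _)).mul_left _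
  have hper : ∀ n, F p (n + Lam) * R (n + Lam) = F p n * R n := by
    intro n
    rw [per_dvd h hp (hLam p hp)]
    congr 1
    exact prod_per h r hr (fun q hq => hLam q (hr q hq)) n
  have h1 : ∀ m : ℕ, ∑ n ∈ range Lam, F p n * R n =
      ∑ n ∈ range Lam, F p (n + m * H) * R n := by
    intro m
    rw [← sum_shift (fun n => F p n * R n) Lam hper (m * H)]
    refine Finset.sum_congr rfl fun n _ => ?_
    rw [hRH]
  have h2 : (ell p : ℝ) * ∑ n ∈ range Lam, F p n * R n =
      ∑ m ∈ range (ell p), ∑ n ∈ range Lam, F p (n + m * H) * R n := by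
    rw [Finset.sum_congr rfl fun m _ => (h1 m).symm, Finset.sum_const, Finset.card_range,
      nsmul_eq_mul]
  rw [Finset.sum_comm] at h2
  have h3 : ∑ n ∈ range Lam, ∑ m ∈ range (ell p), F p (n + m * H) * R n ≤
      ∑ n ∈ range Lam, ((1 + δ) * ell p) * R n := by
    refine Finset.sum_le_sum fun n _ => ?_
    rw [← Finset.sum_mul]
    exact mul_le_mul_of_nonneg_right (h.mean p hp w n hwl) (prod_nonneg' h r hr n)
  rw [← Finset.mul_sum] at h3
  have h4 : (ell p : ℝ) * ∑ n ∈ range Lam, F p n * R n ≤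
      (ell p : ℝ) * ((1 + δ) * ∑ n ∈ range Lam, R n) := by
    rw [h2]
    refine h3.trans (le_of_eq ?_)
    ring
  exact le_of_mul_le_mul_left h4 hl0

/-- summation over the next prime -/
lemma next_sum (h : Sys P F T ell y s δ) {Lam : ℕ} (hLam : ∀ p ∈ P, T p ∣ Lam)
    (r : List ℕ) (hr : ∀ q ∈ r, q ∈ P) :
    ∑ p ∈ P, ∑ n ∈ range Lam, F p n * (r.map (fun q => F q n)).prod ≤
      ((1 + δ) * P.card + 2 * (r.length * s)) * ∑ n ∈ range Lam, (r.map (fun q => F q n)).prod := by
  classical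
  set U := ∑ n ∈ range Lam, (r.map (fun q => F q n)).prod with hU
  have hU0 : 0 ≤ U := Finset.sum_nonneg fun n _ => prod_nonneg' h r hr n
  set Pold := P.filter (fun p => ∃ q ∈ r, ell p = ell q) with hPold
  have hcard : (Pold.card : ℝ) ≤ r.length * s := by
    have h1 : Pold ⊆ r.toFinset.biUnion (fun q => P.filter (fun p => ell p = ell q)) := by
      intro p hp
      rw [hPold, Finset.mem_filter] at hp
      obtain ⟨hp1, q, hq, hpq⟩ := hp
      rw [Finset.mem_biUnion]
      exact ⟨q, List.mem_toFinset.2 hq, Finset.mem_filter.2 ⟨hp1, hpq⟩⟩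
    have h2 : Pold.card ≤ r.length * s := by
      refine (Finset.card_le_card h1).trans (Finset.card_biUnion_le.trans ?_)
      calc ∑ q ∈ r.toFinset, (P.filter (fun p => ell p = ell q)).card
          ≤ ∑ _q ∈ r.toFinset, s := Finset.sum_le_sum fun q hq =>
            h.cls q (hr q (List.mem_toFinset.1 hq))
        _ = r.toFinset.card * s := by rw [Finset.sum_const, smul_eq_mul]
        _ ≤ r.length * s := Nat.mul_le_mul_right _ (List.toFinset_card_le r)
    exact_mod_cast h2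
  have hterm : ∀ p ∈ P, ∑ n ∈ range Lam, F p n * (r.map (fun q => F q n)).prod ≤
      (1 + δ) * U + (if p ∈ Pold then 2 * U else 0) := by
    intro p hp
    split_ifs with hp1
    · have h1 : ∑ n ∈ range Lam, F p n * (r.map (fun q => F q n)).prod ≤ 2 * U := by
        rw [hU, Finset.mul_sum]
        exact Finset.sum_le_sum fun n _ =>
          mul_le_mul_of_nonneg_right (h.le_two p hp n) (prod_nonneg' h r hr n)
      have h2 : 0 ≤ (1 + δ) * U := mul_nonneg (by linarith [h.δ_nonneg]) hU0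
      linarith
    · rw [add_zero]
      apply new_class h hLam hp r hr
      intro q hq hpq
      apply hp1
      rw [hPold, Finset.mem_filter]
      exact ⟨hp, q, hq, hpq⟩
  refine (Finset.sum_le_sum hterm).trans ?_
  rw [Finset.sum_add_distrib, Finset.sum_const, nsmul_eq_mul, Finset.sum_ite_mem]
  have h3 : P ∩ Pold = Pold := Finset.inter_eq_right.2 (Finset.filter_subset _ _)
  rw [h3, Finset.sum_const, nsmul_eq_mul]
  have h4 : (Pold.card : ℝ) * (2 * U) ≤ (r.length * s) * (2 * U) :=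
    mul_le_mul_of_nonneg_right hcard (by positivity)
  have h5 : (r.length : ℝ) * s * (2 * U) = 2 * (r.length * s) * U := by ring
  rw [h5] at h4
  nlinarith

/-- the mean value of the power of the sum -/
lemma power_mean (h : Sys P F T ell y s δ) {Lam : ℕ} (hLam : ∀ p ∈ P, T p ∣ Lam) (k : ℕ) :
    ∀ (j : ℕ) (r : List ℕ), (∀ q ∈ r, q ∈ P) → r.length + j ≤ k →
    ∑ n ∈ range Lam, (∑ p ∈ P, F p n) ^ j * (r.map (fun q => F q n)).prod ≤
      ((1 + δ) * P.card + 2 * (k * s)) ^ j * ∑ n ∈ range Lam, (r.map (fun q => F q n)).prod := by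
  intro j
  induction j with
  | zero => intro r _ _; simp
  | succ j ih =>
    intro r hr hk
    set Q : ℝ := (1 + δ) * P.card + 2 * (k * s) with hQ
    have hQ0 : 0 ≤ Q := by
      have := h.δ_nonneg
      positivity
    have h1 : ∑ n ∈ range Lam, (∑ p ∈ P, F p n) ^ (j + 1) * (r.map (fun q => F q n)).prod =
        ∑ p ∈ P, ∑ n ∈ range Lam, (∑ p ∈ P, F p n) ^ j *
          ((p :: r).map (fun q => F q n)).prod := by
      rw [Finset.sum_comm]
      refine Finset.sum_congr rfl fun n _ => ?_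
      rw [← Finset.mul_sum]
      simp only [List.map_cons, List.prod_cons]
      rw [← Finset.sum_mul]
      ring
    rw [h1]
    have h2 : ∀ p ∈ P, ∑ n ∈ range Lam, (∑ p ∈ P, F p n) ^ j *
          ((p :: r).map (fun q => F q n)).prod ≤
        Q ^ j * ∑ n ∈ range Lam, F p n * (r.map (fun q => F q n)).prod := by
      intro p hp
      have h3 := ih (p :: r) (by
        intro q hq
        rcases List.mem_cons.1 hq with h4 | h4
        · rw [h4]; exact hp
        · exact hr q h4) (by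
        simp only [List.length_cons]
        omega)
      simpa only [List.map_cons, List.prod_cons] using h3
    refine (Finset.sum_le_sum h2).trans ?_
    rw [← Finset.mul_sum, pow_succ, mul_assoc]
    apply mul_le_mul_of_nonneg_left _ (by positivity)
    refine (next_sum h hLam r hr).trans ?_
    apply mul_le_mul_of_nonneg_right _ (Finset.sum_nonneg fun n _ => prod_nonneg' h r hr n)
    have h4 : (r.length : ℝ) ≤ k := by exact_mod_cast (by omega : r.length ≤ k)
    have h5 : (0 : ℝ) ≤ s := Nat.cast_nonneg _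
    have h6 := mul_le_mul_of_nonneg_right h4 h5
    rw [hQ]
    linarith

/-- **The exceptional set.** -/
theorem exceptional (h : Sys P F T ell y s δ) (N k : ℕ) (hk : y ^ k ≤ N) (hP : P.Nonempty) :
    ((((range N).filter (fun n => (3 / 2 : ℝ) * P.card ≤ ∑ p ∈ P, F p n)).card : ℕ) : ℝ) *
      ((3 / 2 : ℝ) * P.card) ^ k ≤ 2 * N * ((1 + δ) * P.card + 2 * (k * s)) ^ k := by
  classical
  set Lam : ℕ := (∏ p ∈ P, T p) ^ (k + 1) with hLamdef
  have hprod : ∀ p ∈ P, T p ∣ ∏ p ∈ P, T p := fun p hp => Finset.dvd_prod_of_mem _ hp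
  have hLam : ∀ p ∈ P, T p ∣ Lam := fun p hp => (hprod p hp).trans (dvd_pow_self _ (by omega))
  have hLam1 : 1 ≤ Lam := Nat.pow_pos (Finset.prod_pos fun p hp => h.T_pos p hp)
  have hLamr : (0 : ℝ) < Lam := by exact_mod_cast hLam1
  have h1 : ((((range N).filter (fun n => (3 / 2 : ℝ) * P.card ≤ ∑ p ∈ P, F p n)).card : ℕ) : ℝ) *
      ((3 / 2 : ℝ) * P.card) ^ k ≤ ∑ n ∈ range N, (∑ p ∈ P, F p n) ^ k := by
    rw [← nsmul_eq_mul, ← Finset.sum_const]
    calc ∑ _n ∈ (range N).filter (fun n => (3 / 2 : ℝ) * P.card ≤ ∑ p ∈ P, F p n),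
          ((3 / 2 : ℝ) * P.card) ^ k
        ≤ ∑ n ∈ (range N).filter (fun n => (3 / 2 : ℝ) * P.card ≤ ∑ p ∈ P, F p n),
          (∑ p ∈ P, F p n) ^ k := by
          refine Finset.sum_le_sum fun n hn => ?_
          exact pow_le_pow_left₀ (by positivity) (Finset.mem_filter.1 hn).2 k
      _ ≤ _ := Finset.sum_le_sum_of_subset_of_nonneg (Finset.filter_subset _ _) fun n _ _ =>
          pow_nonneg (Finset.sum_nonneg fun p hp => h.nonneg p hp n) _
  refine h1.trans ?_
  have h2 : ∀ n : ℕ, (∑ p ∈ P, F p n) ^ k =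
      ∑ x ∈ Fintype.piFinset (fun _ : Fin k => P), ∏ i, F (x i) n := by
    intro n
    rw [← Finset.prod_univ_sum (fun _ : Fin k => P) (fun _ p => F p n), Finset.prod_const,
      Finset.card_univ, Fintype.card_fin]
  have h3 : ∑ n ∈ range N, (∑ p ∈ P, F p n) ^ k ≤
      2 * N / Lam * ∑ n ∈ range Lam, (∑ p ∈ P, F p n) ^ k := by
    simp_rw [h2]
    rw [Finset.sum_comm, Finset.sum_comm (s := range Lam), Finset.mul_sum]
    refine Finset.sum_le_sum fun x hx => ?_
    rw [Fintype.mem_piFinset] at hx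
    apply block (fun n => ∏ i, F (x i) n) (∏ i, T (x i)) Lam N
    · intro n
      exact Finset.prod_nonneg fun i _ => h.nonneg _ (hx i) n
    · exact Nat.succ_le_of_lt (Finset.prod_pos fun i _ => Nat.lt_of_succ_le (h.T_pos _ (hx i)))
    · exact hLam1
    · calc ∏ i, T (x i) ∣ ∏ _i : Fin k, ∏ p ∈ P, T p :=
            Finset.prod_dvd_prod_of_dvd _ _ fun i _ => hprod _ (hx i)
        _ = (∏ p ∈ P, T p) ^ k := by rw [Finset.prod_const, Finset.card_univ, Fintype.card_fin]
        _ ∣ Lam := pow_dvd_pow _ (by omega)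
    · calc ∏ i, T (x i) ≤ ∏ _i : Fin k, y := Finset.prod_le_prod' fun i _ => h.T_le _ (hx i)
        _ = y ^ k := by rw [Finset.prod_const, Finset.card_univ, Fintype.card_fin]
        _ ≤ N := hk
    · intro n
      refine Finset.prod_congr rfl fun i _ => ?_
      exact per_dvd h (hx i) (Finset.dvd_prod_of_mem (fun i => T (x i)) (mem_univ i)) n
  refine h3.trans ?_
  have h4 := power_mean h hLam k k [] (by simp) (by simp)
  simp only [List.map_nil, List.prod_nil, mul_one, Finset.sum_const, Finset.card_range,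
    nsmul_eq_mul] at h4
  calc 2 * (N : ℝ) / Lam * ∑ n ∈ range Lam, (∑ p ∈ P, F p n) ^ k
      ≤ 2 * (N : ℝ) / Lam * (((1 + δ) * P.card + 2 * (k * s)) ^ k * Lam) :=
        mul_le_mul_of_nonneg_left h4 (by positivity)
    _ = _ := by field_simp

end Pool.Agent.V8H10.EX
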