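import Mathlib

/-!
# The quadratic character on the translates of a subgroup of odd order
-/

set_option autoImplicit false

open Finset

namespace Pool.Agent.V8H10.EX

variable {p : ℕ} [Fact p.Prime]

/-- the quadratic character of `ZMod p`, with real values -/
noncomputable def ch (p : ℕ) [Fact p.Prime] (x : ZMod p) : ℝ := ((quadraticChar (ZMod p) x : ℤ) : ℝ)

lemma ch_mul (x y : ZMod p) : ch p (x * y) = ch p x * ch p y := by
  unfold ch
  rw [map_mul]
  push_cast
  rfl

lemma ch_zero : ch p 0 = 0 := by
  unfold ch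
  simp

lemma ch_sq_one {x : ZMod p} (hx : x ≠ 0) : ch p x * ch p x = 1 := by
  unfold ch
  have h := quadraticChar_sq_one hx
  rw [sq] at h
  exact_mod_cast h

lemma ch_inv (x : ZMod p) : ch p x⁻¹ = ch p x := by
  by_cases hx : x = 0
  · rw [hx, inv_zero]
  · have h1 : ch p x⁻¹ * ch p x = 1 := by
      rw [← ch_mul, inv_mul_cancel₀ hx]
      unfold ch
      simp
    have h2 := ch_sq_one hx
    have h3 : ch p x ≠ 0 := by
      intro h
      rw [h] at h2
      simp at h2
    exact mul_right_cancel₀ h3 (h1.trans h2.symm)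

lemma ch_div (x y : ZMod p) : ch p (x / y) = ch p x * ch p y := by
  rw [div_eq_mul_inv, ch_mul, ch_inv]

lemma ch_abs_le (x : ZMod p) : |ch p x| ≤ 1 := by
  by_cases hx : x = 0
  · rw [hx, ch_zero]
    simp
  · have h2 := ch_sq_one hx
    have : |ch p x| ^ 2 = 1 := by rw [sq_abs, sq, h2]
    nlinarith [abs_nonneg (ch p x)]

lemma sum_ch (hp : p ≠ 2) : ∑ x : ZMod p, ch p x = 0 := by
  have h : ringChar (ZMod p) ≠ 2 := by
    rw [ZMod.ringChar_zmod_n]
    exact hp
  have h1 := quadraticChar_sum_zero h
  unfold ch
  exact_mod_cast h1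

/-- the sum of the quadratic character over the values of a product of two linear polynomials -/
lemma quad_sum (hp : p ≠ 2) {h k b : ZMod p} (hh : h ≠ 0) (_hk : k ≠ 0) (hb : b ≠ 0) (hhk : h ≠ k) :
    ∑ c : ZMod p, ch p (c * h + b) * ch p (c * k + b) = - ch p (h * k) := by
  classical
  have h1 : ∀ c : ZMod p, ch p (c * h + b) * ch p (c * k + b) =
      ch p ((c * k + b) / (c * h + b)) := by
    intro c
    rw [ch_div, mul_comm]
  have hc0 : ∀ c : ZMod p, c * h + b = 0 ↔ c = -b / h := by
    intro c
    rw [eq_div_iff hh]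
    constructor
    · intro h2; linear_combination h2
    · intro h2; linear_combination h2
  rw [Finset.sum_congr rfl fun c _ => h1 c]
  have h2 : ∑ c : ZMod p, ch p ((c * k + b) / (c * h + b)) =
      ∑ c ∈ univ.erase (-b / h), ch p ((c * k + b) / (c * h + b)) := by
    symm
    apply Finset.sum_subset (Finset.erase_subset _ _)
    intro c _ hc
    rw [Finset.mem_erase, not_and'] at hc
    have h3 : c = -b / h := by
      by_contra h4
      exact hc (mem_univ _) h4
    rw [(hc0 c).2 h3, div_zero, ch_zero]
  have h3 : ∑ c ∈ univ.erase (-b / h), ch p ((c * k + b) / (c * h + b)) =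
      ∑ w ∈ univ.erase (k / h), ch p w := by
    apply Finset.sum_nbij' (fun c => (c * k + b) / (c * h + b))
      (fun w => b * (1 - w) / (w * h - k))
    · intro c hc
      rw [Finset.mem_erase] at hc ⊢
      refine ⟨?_, mem_univ _⟩
      intro h4
      have h5 : c * h + b ≠ 0 := fun h6 => hc.1 ((hc0 c).1 h6)
      rw [div_eq_div_iff h5 hh] at h4
      apply hhk
      have h6 : b * (h - k) = 0 := by linear_combination h4
      rcases mul_eq_zero.1 h6 with h7 | h7
      · exact absurd h7 hb
      · exact sub_eq_zero.1 h7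
    · intro w hw
      rw [Finset.mem_erase] at hw ⊢
      refine ⟨?_, mem_univ _⟩
      intro h4
      have h5 : w * h - k ≠ 0 := by
        intro h6
        apply hw.1
        rw [eq_div_iff hh]
        linear_combination h6
      rw [div_eq_div_iff h5 hh] at h4
      apply hhk
      have h6 : b * (h - k) = 0 := by linear_combination h4
      rcases mul_eq_zero.1 h6 with h7 | h7
      · exact absurd h7 hb
      · exact sub_eq_zero.1 h7
    · intro c hc
      rw [Finset.mem_erase] at hc
      have h5 : c * h + b ≠ 0 := fun h6 => hc.1 ((hc0 c).1 h6)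
      have h6 : (c * k + b) / (c * h + b) * h - k ≠ 0 := by
        intro h7
        have h8 : (c * k + b) / (c * h + b) * h - k = b * (h - k) / (c * h + b) := by
          field_simp
          ring
        rw [h8, div_eq_zero_iff] at h7
        rcases h7 with h7 | h7
        · rcases mul_eq_zero.1 h7 with h9 | h9
          · exact hb h9
          · exact hhk (sub_eq_zero.1 h9)
        · exact h5 h7
      rw [div_eq_iff h6]
      field_simp
      ring
    · intro w hw
      rw [Finset.mem_erase] at hw
      have h5 : w * h - k ≠ 0 := by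
        intro h6
        apply hw.1
        rw [eq_div_iff hh]
        linear_combination h6
      have h6 : b * (1 - w) / (w * h - k) * h + b ≠ 0 := by
        intro h7
        have h8 : b * (1 - w) / (w * h - k) * h + b = b * (h - k) / (w * h - k) := by
          field_simp
          ring
        rw [h8, div_eq_zero_iff] at h7
        rcases h7 with h7 | h7
        · rcases mul_eq_zero.1 h7 with h9 | h9
          · exact hb h9
          · exact hhk (sub_eq_zero.1 h9)
        · exact h5 h7
      rw [div_eq_iff h6]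
      field_simp
      ring
    · intro c _
      rfl
  rw [h2, h3]
  have h4 := Finset.add_sum_erase univ (fun w => ch p w) (mem_univ (k / h))
  rw [sum_ch hp] at h4
  have h5 : ch p (k / h) = ch p (h * k) := by rw [ch_div, ch_mul, mul_comm]
  rw [h5] at h4
  linarith

/-- the sum over a translate of a subgroup of odd order -/
lemma subgroup_sum (hp : p ≠ 2) {z a b : ZMod p} (ha : a ≠ 0) (hb : b ≠ 0) {l : ℕ} (hl : Odd l)
    (hz : orderOf z = l) :
    |∑ m ∈ range l, ch p (a * z ^ m + b)| ≤ Real.sqrt p := by
  classical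
  have hl0 : 0 < l := hl.pos
  have hzl : z ^ l = 1 := by rw [← hz]; exact pow_orderOf_eq_one z
  have hz0 : z ≠ 0 := by
    intro h
    rw [h, zero_pow hl0.ne'] at hzl
    exact zero_ne_one hzl
  have hchz : ch p z = 1 := by
    obtain ⟨j, hj⟩ := hl
    have h1 : z = z ^ (j + 1) * z ^ (j + 1) := by
      rw [← pow_add]
      have h2 : j + 1 + (j + 1) = l + 1 := by omega
      rw [h2, pow_succ, hzl, one_mul]
    rw [h1, ch_mul, ch_sq_one (pow_ne_zero _ hz0)]
  have hchzm : ∀ m : ℕ, ch p (z ^ m) = 1 := by
    intro m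
    induction m with
    | zero => unfold ch; simp
    | succ m ih => rw [pow_succ, ch_mul, ih, hchz, one_mul]
  set S : ZMod p → ℝ := fun c => ∑ m ∈ range l, ch p (c * z ^ m + b) with hS
  have hzinj : ∀ m < l, ∀ m' < l, z ^ m = z ^ m' → m = m' := by
    intro m hm m' hm' h
    exact pow_injOn_Iio_orderOf (Set.mem_Iio.2 (by omega)) (Set.mem_Iio.2 (by omega)) h
  -- invariance
  have hinv1 : ∀ c : ZMod p, S (c * z) = S c := by
    intro c
    have h1 : S (c * z) = ∑ m ∈ range l, ch p (c * z ^ (m + 1) + b) := by
      simp only [hS]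
      refine Finset.sum_congr rfl fun m _ => ?_
      rw [pow_succ]
      congr 2
      ring
    have h2 := Finset.sum_range_succ' (fun m => ch p (c * z ^ m + b)) l
    have h3 := Finset.sum_range_succ (fun m => ch p (c * z ^ m + b)) l
    rw [h1]
    simp only [hS]
    rw [h3, hzl, pow_zero] at h2
    linarith
  have hinv : ∀ j : ℕ, S (a * z ^ j) = S a := by
    intro j
    induction j with
    | zero => simp
    | succ j ih => rw [pow_succ, ← mul_assoc, hinv1, ih]
  -- the points `a z ^ j`
  have h1 : (l : ℝ) * S a ^ 2 ≤ ∑ c ∈ univ.erase (0 : ZMod p), S c ^ 2 := by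
    have h2 : ∑ c ∈ (range l).image (fun j => a * z ^ j), S c ^ 2 = (l : ℝ) * S a ^ 2 := by
      rw [Finset.sum_image]
      · simp_rw [hinv]
        rw [Finset.sum_const, Finset.card_range, nsmul_eq_mul]
      · intro i hi j hj hij
        rw [Finset.coe_range, Set.mem_Iio] at hi hj
        exact hzinj i hi j hj (mul_left_cancel₀ ha hij)
    rw [← h2]
    apply Finset.sum_le_sum_of_subset_of_nonneg
    · intro c hc
      obtain ⟨j, _, rfl⟩ := Finset.mem_image.1 hc
      rw [Finset.mem_erase]
      exact ⟨mul_ne_zero ha (pow_ne_zero _ hz0), mem_univ _⟩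
    · intro c _ _
      positivity
  have h2 : ∑ c ∈ univ.erase (0 : ZMod p), S c ^ 2 ≤ (l : ℝ) * p := by
    have h3 : ∀ c : ZMod p, S c ^ 2 = ∑ m ∈ range l, ∑ m' ∈ range l,
        ch p (c * z ^ m + b) * ch p (c * z ^ m' + b) := by
      intro c
      rw [sq, hS]
      simp only
      rw [Finset.sum_mul_sum]
    rw [Finset.sum_congr rfl fun c _ => h3 c, Finset.sum_comm]
    have h4 : ∀ m ∈ range l, ∑ c ∈ univ.erase (0 : ZMod p), ∑ m' ∈ range l,
        ch p (c * z ^ m + b) * ch p (c * z ^ m' + b) ≤ p := by
      intro m hm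
      rw [Finset.sum_comm]
      rw [← Finset.add_sum_erase _ _ hm]
      have h5 : ∑ c ∈ univ.erase (0 : ZMod p), ch p (c * z ^ m + b) * ch p (c * z ^ m + b) ≤ p := by
        calc ∑ c ∈ univ.erase (0 : ZMod p), ch p (c * z ^ m + b) * ch p (c * z ^ m + b)
            ≤ ∑ _c ∈ univ.erase (0 : ZMod p), (1 : ℝ) := by
              refine Finset.sum_le_sum fun c _ => ?_
              have h6 := ch_abs_le (c * z ^ m + b)
              have h7 : ch p (c * z ^ m + b) * ch p (c * z ^ m + b) =
                  |ch p (c * z ^ m + b)| * |ch p (c * z ^ m + b)| := by rw [abs_mul_abs_self]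
              rw [h7]
              nlinarith [abs_nonneg (ch p (c * z ^ m + b))]
          _ ≤ ∑ _c ∈ (univ : Finset (ZMod p)), (1 : ℝ) :=
              Finset.sum_le_sum_of_subset_of_nonneg (Finset.erase_subset _ _) fun _ _ _ => by
                norm_num
          _ = p := by
              rw [Finset.sum_const, Finset.card_univ, ZMod.card, nsmul_eq_mul, mul_one]
      have h6 : ∑ m' ∈ (range l).erase m, ∑ c ∈ univ.erase (0 : ZMod p),
          ch p (c * z ^ m + b) * ch p (c * z ^ m' + b) ≤ 0 := by
        apply Finset.sum_nonpos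
        intro m' hm'
        rw [Finset.mem_erase, Finset.mem_range] at hm'
        have h7 := quad_sum hp (pow_ne_zero m hz0) (pow_ne_zero m' hz0) hb (fun h8 =>
          hm'.1 (hzinj m (Finset.mem_range.1 hm) m' hm'.2 h8).symm)
        rw [← Finset.add_sum_erase _ _ (mem_univ (0 : ZMod p)), zero_mul, zero_mul, zero_add,
          ch_sq_one hb, ch_mul, hchzm, hchzm] at h7
        linarith
      linarith
    calc _ ≤ ∑ m ∈ range l, (p : ℝ) := Finset.sum_le_sum h4
      _ = (l : ℝ) * p := by rw [Finset.sum_const, Finset.card_range, nsmul_eq_mul]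
  have hlr : (0 : ℝ) < l := by exact_mod_cast hl0
  have h3 : S a ^ 2 ≤ p := le_of_mul_le_mul_left (h1.trans h2) hlr
  exact Real.abs_le_sqrt h3

end Pool.Agent.V8H10.EX
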