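import Mathlib
import Pool.Agent.N120.TC.P

/-!
# Many primes `r ≤ t` such that the order of `g` has a prime factor larger than `t ^ (1 / 2 + κ)`
-/

set_option autoImplicit false

open Finset Filter

namespace Pool.Agent.V8H10.EX

lemma card_primeFactors_lt (g : ℕ) (hg : 2 ≤ g) (t : ℕ) (ht : 0 < t) :
    (g ^ t - 1).primeFactors.card ≤ g * t := by
  have h2 : 1 < g ^ t := Nat.one_lt_pow (by omega) (by omega)
  have h0 : g ^ t - 1 ≠ 0 := by omega
  have h1 : 2 ^ (g ^ t - 1).primeFactors.card ≤ ∏ p ∈ (g ^ t - 1).primeFactors, p := by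
    apply Finset.pow_card_le_prod
    intro p hp
    exact (Nat.prime_of_mem_primeFactors hp).two_le
  have h3 : ∏ p ∈ (g ^ t - 1).primeFactors, p ≤ g ^ t - 1 :=
    Nat.le_of_dvd (Nat.pos_of_ne_zero h0) (Nat.prod_primeFactors_dvd _)
  have h4 : g ^ t ≤ 2 ^ (g * t) := by
    rw [pow_mul]
    exact Nat.pow_le_pow_left (Nat.lt_two_pow_self).le t
  have h5 : 2 ^ (g ^ t - 1).primeFactors.card < 2 ^ (g * t) := by omega
  exact ((Nat.pow_lt_pow_iff_right (by norm_num)).1 h5).le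

/-- the number of primes with a small order of `g` -/
lemma small_order (g : ℕ) (hg : 2 ≤ g) (F : Finset ℕ) (D : ℕ)
    (hF : ∀ p ∈ F, p.Prime ∧ 0 < orderOf (g : ZMod p) ∧ orderOf (g : ZMod p) ≤ D) :
    F.card ≤ g * (D * D) := by
  classical
  have h1 : F ⊆ (Ioc 0 D).biUnion (fun t => (g ^ t - 1).primeFactors) := by
    intro p hp
    obtain ⟨h1, h2, h3⟩ := hF p hp
    rw [Finset.mem_biUnion]
    refine ⟨orderOf (g : ZMod p), Finset.mem_Ioc.2 ⟨h2, h3⟩, ?_⟩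
    rw [Nat.mem_primeFactors]
    have h4 : 1 < g ^ orderOf (g : ZMod p) := Nat.one_lt_pow (by omega) (by omega)
    refine ⟨h1, ?_, by omega⟩
    rw [← ZMod.natCast_eq_zero_iff, Nat.cast_sub (by omega)]
    push_cast
    rw [pow_orderOf_eq_one]
    simp
  refine (Finset.card_le_card h1).trans (Finset.card_biUnion_le.trans ?_)
  calc ∑ t ∈ Ioc 0 D, (g ^ t - 1).primeFactors.card ≤ ∑ t ∈ Ioc 0 D, g * D := by
        apply Finset.sum_le_sum
        intro t ht
        rw [Finset.mem_Ioc] at ht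
        exact (card_primeFactors_lt g hg t ht.1).trans (Nat.mul_le_mul_left _ ht.2)
    _ = g * (D * D) := by simp; ring

lemma order_pos {g p : ℕ} (hp : p.Prime) (hg : ¬ p ∣ g) :
    (g : ZMod p) ^ (p - 1) = 1 ∧ 0 < orderOf (g : ZMod p) := by
  have hfact : Fact p.Prime := ⟨hp⟩
  have h0 : (g : ZMod p) ≠ 0 := by
    intro h
    exact hg ((ZMod.natCast_eq_zero_iff g p).1 h)
  have h1 := ZMod.pow_card_sub_one_eq_one h0
  exact ⟨h1, orderOf_pos_iff.2 (isOfFinOrder_iff_pow_eq_one.2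
      ⟨p - 1, by have := hp.two_le; omega, h1⟩)⟩

/-- many primes `r ≤ t` such that the order of `g` has a large prime factor -/
theorem good_primes : ∃ κ c : ℝ, 0 < κ ∧ κ ≤ 1 / 4 ∧ 0 < c ∧ ∀ g : ℕ, 2 ≤ g → ∃ T : ℕ,
    ∀ t : ℕ, T ≤ t →
    ∀ b : ℤ, b ≠ 0 → (b.natAbs.primeFactors.card : ℝ) ≤ c * (t / Real.log t) →
    ∃ P : Finset ℕ, ∃ ell : ℕ → ℕ, c * (t / Real.log t) ≤ (P.card : ℝ) ∧
      ∀ r ∈ P, (r.Prime ∧ r ≤ t ∧ r ≠ 2 ∧ ¬ (r : ℤ) ∣ b ∧ ¬ r ∣ g) ∧
        (ell r).Prime ∧ (t : ℝ) ^ (1 / 2 + κ) < (ell r : ℝ) ∧ ell r ∣ orderOf (g : ZMod r) := by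
  classical
  obtain ⟨κ, c, hκ, hκ4, hc, T, hT⟩ := Pool.Agent.N120.TC.t_P 1 le_rfl
  refine ⟨κ, c / 4, hκ, hκ4, by positivity, fun g hg => ?_⟩
  have hgr : (0 : ℝ) < g := by exact_mod_cast (by omega : 0 < g)
  have hev : ∀ A s : ℝ, 0 < A → 0 < s → ∀ᶠ t : ℕ in atTop, A * Real.log t ≤ (t : ℝ) ^ s := by
    intro A s hA hs
    have h1 := (isLittleO_log_rpow_atTop hs).bound (show (0 : ℝ) < 1 / A by positivity)
    have h2 := tendsto_natCast_atTop_atTop (R := ℝ) |>.eventually h1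
    filter_upwards [h2, eventually_ge_atTop 1] with t ht ht1
    have ht0 : (1 : ℝ) ≤ t := by exact_mod_cast ht1
    rw [Real.norm_of_nonneg (Real.log_nonneg ht0), Real.norm_of_nonneg (by positivity)] at ht
    have h3 := mul_le_mul_of_nonneg_left ht hA.le
    refine h3.trans (le_of_eq ?_)
    field_simp
  obtain ⟨T2, hT2⟩ := eventually_atTop.1
    ((hev (4 * g / c) (2 * κ) (by positivity) (by positivity)).and
      (hev (4 * (g + 1) / c) 1 (by positivity) one_pos))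
  refine ⟨max (max T T2) 3, fun t ht b hb hbc => ?_⟩
  have ht1 : T ≤ t := ((le_max_left _ _).trans (le_max_left _ _)).trans ht
  have ht2 : T2 ≤ t := ((le_max_right _ _).trans (le_max_left _ _)).trans ht
  have ht3 : 3 ≤ t := (le_max_right _ _).trans ht
  have htr : (3 : ℝ) ≤ t := by exact_mod_cast ht3
  have ht0 : (0 : ℝ) < t := by linarith
  have hL : 0 < Real.log t := Real.log_pos (by linarith)
  obtain ⟨g1, g2⟩ := hT2 t ht2
  rw [Real.rpow_one] at g2
  have hPF := hT t ht1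
  set A := Pool.Agent.N120.TC.PF 1 t ((t : ℝ) ^ (1 / 2 + κ)) with hA
  set P : Finset ℕ := A.filter (fun r : ℕ => r ≠ 2 ∧ ¬ (r : ℤ) ∣ b ∧ ¬ r ∣ g ∧
    ∃ q : ℕ, q.Prime ∧ (t : ℝ) ^ (1 / 2 + κ) < (q : ℝ) ∧ q ∣ orderOf (g : ZMod r)) with hP
  set E : ℕ := ⌊(t : ℝ) ^ (1 / 2 - κ)⌋₊ with hE
  set F : Finset ℕ := A.filter (fun r : ℕ => ¬ r ∣ g ∧ orderOf (g : ZMod r) ≤ E) with hF
  have hsub : A ⊆ P ∪ (F ∪ ({2} ∪ (b.natAbs.primeFactors ∪ g.primeFactors))) := by
    intro r hr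
    obtain ⟨h1, h2, _, q, hq, hq1, hq2⟩ := Pool.Agent.N120.TC.P_.mem_PF.1 (hA ▸ hr)
    rw [Finset.mem_union, Finset.mem_union, Finset.mem_union, Finset.mem_singleton,
      Finset.mem_union]
    by_cases h3 : r = 2
    · exact Or.inr (Or.inr (Or.inl h3))
    by_cases h4 : (r : ℤ) ∣ b
    · refine Or.inr (Or.inr (Or.inr (Or.inl ?_)))
      rw [Nat.mem_primeFactors]
      exact ⟨h2, Int.natCast_dvd.1 h4, Int.natAbs_ne_zero.2 hb⟩
    by_cases hg' : r ∣ g
    · refine Or.inr (Or.inr (Or.inr (Or.inr ?_)))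
      rw [Nat.mem_primeFactors]
      exact ⟨h2, hg', by omega⟩
    obtain ⟨hone, hpos⟩ := order_pos h2 hg'
    have hdvd : orderOf (g : ZMod r) ∣ r - 1 := orderOf_dvd_of_pow_eq_one hone
    have hr1 : 0 < r - 1 := by have := h2.two_le; omega
    by_cases h5 : q ∣ orderOf (g : ZMod r)
    · left
      rw [hP, Finset.mem_filter]
      exact ⟨hr, h3, h4, hg', q, hq, hq1, h5⟩
    · refine Or.inr (Or.inl ?_)
      rw [hF, Finset.mem_filter]
      refine ⟨hr, hg', ?_⟩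
      have hcop : Nat.Coprime q (orderOf (g : ZMod r)) := (Nat.Prime.coprime_iff_not_dvd hq).2 h5
      have h6 : q * orderOf (g : ZMod r) ∣ r - 1 := hcop.mul_dvd_of_dvd_of_dvd hq2 hdvd
      have h7 := Nat.le_of_dvd hr1 h6
      have h8 : (q : ℝ) * orderOf (g : ZMod r) ≤ t := by
        exact_mod_cast h7.trans (by omega)
      apply Nat.le_floor
      have h9 : (t : ℝ) ^ (1 / 2 + κ) * (t : ℝ) ^ (1 / 2 - κ) = t := by
        rw [← Real.rpow_add ht0]
        have : (1 / 2 + κ + (1 / 2 - κ) : ℝ) = 1 := by ring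
        rw [this, Real.rpow_one]
      have h10 : 0 < (t : ℝ) ^ (1 / 2 + κ) := by positivity
      have h11 : (t : ℝ) ^ (1 / 2 + κ) * orderOf (g : ZMod r) ≤
          (t : ℝ) ^ (1 / 2 + κ) * (t : ℝ) ^ (1 / 2 - κ) := by
        rw [h9]
        refine le_trans ?_ h8
        exact mul_le_mul_of_nonneg_right hq1.le (Nat.cast_nonneg _)
      exact le_of_mul_le_mul_left h11 h10
  have hFc : F.card ≤ g * (E * E) := by
    apply small_order g hg
    intro p hp
    rw [hF, Finset.mem_filter] at hp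
    have hp2 := (Pool.Agent.N120.TC.P_.mem_PF.1 (hA ▸ hp.1)).2.1
    exact ⟨hp2, (order_pos hp2 hp.2.1).2, hp.2.2⟩
  have hgc : g.primeFactors.card ≤ g := by
    calc g.primeFactors.card ≤ (Finset.Icc 1 g).card := by
          apply Finset.card_le_card
          intro p hp
          rw [Finset.mem_Icc]
          exact ⟨(Nat.prime_of_mem_primeFactors hp).pos, Nat.le_of_mem_primeFactors hp⟩
      _ = g := by simp
  have hcard : (A.card : ℝ) ≤ P.card +
      ((g : ℝ) * ((E : ℝ) * E) + (1 + (b.natAbs.primeFactors.card + g))) := by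
    have h1 := Finset.card_le_card hsub
    have h2 := Finset.card_union_le P (F ∪ ({2} ∪ (b.natAbs.primeFactors ∪ g.primeFactors)))
    have h3 := Finset.card_union_le F ({2} ∪ (b.natAbs.primeFactors ∪ g.primeFactors))
    have h4 := Finset.card_union_le {2} (b.natAbs.primeFactors ∪ g.primeFactors)
    have h5 := Finset.card_union_le b.natAbs.primeFactors g.primeFactors
    rw [Finset.card_singleton] at h4
    exact_mod_cast (by omega : A.card ≤
      P.card + (g * (E * E) + (1 + (b.natAbs.primeFactors.card + g))))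
  choose! ell hell using fun (r : ℕ) (hr : r ∈ P) => (Finset.mem_filter.1 (hP ▸ hr)).2.2.2.2
  refine ⟨P, ell, ?_, fun r hr => ?_⟩
  · set V : ℝ := t / Real.log t with hV
    have hE1 : (E : ℝ) ≤ (t : ℝ) ^ (1 / 2 - κ) := Nat.floor_le (by positivity)
    have hE2 : (g : ℝ) * ((E : ℝ) * E) ≤ c / 4 * V := by
      have h1 : (E : ℝ) * E ≤ (t : ℝ) ^ (1 / 2 - κ) * (t : ℝ) ^ (1 / 2 - κ) :=
        mul_le_mul hE1 hE1 (Nat.cast_nonneg _) (by positivity)
      have h2 : (t : ℝ) ^ (1 / 2 - κ) * (t : ℝ) ^ (1 / 2 - κ) * (t : ℝ) ^ (2 * κ) = t := by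
        rw [← Real.rpow_add ht0, ← Real.rpow_add ht0]
        have : (1 / 2 - κ + (1 / 2 - κ) + 2 * κ : ℝ) = 1 := by ring
        rw [this, Real.rpow_one]
      refine (mul_le_mul_of_nonneg_left h1 hgr.le).trans ?_
      rw [hV, ← mul_div_assoc, le_div_iff₀ hL]
      have h3 := mul_le_mul_of_nonneg_left g1
        (show (0 : ℝ) ≤ (t : ℝ) ^ (1 / 2 - κ) * (t : ℝ) ^ (1 / 2 - κ) by positivity)
      rw [h2] at h3
      have h4 : (g : ℝ) * ((t : ℝ) ^ (1 / 2 - κ) * (t : ℝ) ^ (1 / 2 - κ)) * Real.log t =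
          c / 4 * ((t : ℝ) ^ (1 / 2 - κ) * (t : ℝ) ^ (1 / 2 - κ) * (4 * g / c * Real.log t)) := by
        field_simp
      rw [h4]
      exact mul_le_mul_of_nonneg_left h3 (by positivity)
    have h1V : (g : ℝ) + 1 ≤ c / 4 * V := by
      rw [hV, ← mul_div_assoc, le_div_iff₀ hL]
      have h3 := mul_le_mul_of_nonneg_left g2 (show (0 : ℝ) ≤ c / 4 by positivity)
      have h4 : c / 4 * (4 * (g + 1) / c * Real.log t) = (g + 1) * Real.log t := by field_simp
      rw [h4] at h3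
      exact h3
    have h2 : c * V ≤ A.card := hPF
    linarith
  · have hr0 := hr
    rw [hP, Finset.mem_filter] at hr
    obtain ⟨hr1, hr2, hr3, hr4, _⟩ := hr
    obtain ⟨h1, h2, _, _⟩ := Pool.Agent.N120.TC.P_.mem_PF.1 (hA ▸ hr1)
    exact ⟨⟨h2, h1, hr2, hr3, hr4⟩, hell r hr0⟩

end Pool.Agent.V8H10.EX
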