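import Mathlib
import Pool.Agent.V8H10.EX.Char
import Pool.Agent.V8H10.EX.Avg
import Pool.Agent.V8H10.EX.Prm

/-!
# The functions `n ↦ 1 - σ (u g ^ n + v | p)`
-/

set_option autoImplicit false

open Finset Filter

namespace Pool.Agent.V8H10.EX

/-- the value `u g ^ n + v` -/
def fv (g : ℕ) (u v : ℤ) (n : ℕ) : ℤ := u * (g : ℤ) ^ n + v

/-- the function `F` -/
noncomputable def FF (g : ℕ) (u v : ℤ) (σ : ℕ → ℝ) (p n : ℕ) : ℝ :=
  1 - σ p * (jacobiSym (fv g u v n) p : ℝ) + (if (p : ℤ) ∣ fv g u v n then 1 else 0)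

lemma jac_eq {p : ℕ} (hp : p.Prime) (a : ℤ) :
    haveI : Fact p.Prime := ⟨hp⟩; (jacobiSym a p : ℝ) = ch p (a : ZMod p) := by
  have hfact : Fact p.Prime := ⟨hp⟩
  show (jacobiSym a p : ℝ) = ch p (a : ZMod p)
  rw [← jacobiSym.legendreSym.to_jacobiSym]
  rfl

lemma FF_val {g : ℕ} {u v : ℤ} {σ : ℕ → ℝ} {p : ℕ} (hp : p.Prime) (hσ : σ p = 1 ∨ σ p = -1) (n : ℕ) :
    (σ p * (jacobiSym (fv g u v n) p : ℝ) = 1 ∧ FF g u v σ p n = 0) ∨
    (σ p * (jacobiSym (fv g u v n) p : ℝ) ≠ 1 ∧ FF g u v σ p n = 2) := by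
  have hfact : Fact p.Prime := ⟨hp⟩
  unfold FF
  by_cases hd : (p : ℤ) ∣ fv g u v n
  · right
    have h1 : jacobiSym (fv g u v n) p = 0 := by
      rw [← jacobiSym.legendreSym.to_jacobiSym, legendreSym.eq_zero_iff]
      exact (ZMod.intCast_zmod_eq_zero_iff_dvd _ p).2 hd
    rw [if_pos hd, h1]
    norm_num
  · have h1 : jacobiSym (fv g u v n) p = 1 ∨ jacobiSym (fv g u v n) p = -1 := by
      rw [← jacobiSym.legendreSym.to_jacobiSym]
      apply legendreSym.eq_one_or_neg_one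
      intro h
      exact hd ((ZMod.intCast_zmod_eq_zero_iff_dvd _ p).1 h)
    rw [if_neg hd]
    rcases h1 with h1 | h1 <;> rcases hσ with h2 | h2 <;> rw [h1, h2] <;> norm_num

/-- the data of the primes -/
structure Dat (g : ℕ) (u v : ℤ) (κ : ℝ) (y : ℕ) (P : Finset ℕ) (ell : ℕ → ℕ) : Prop where
  prime : ∀ p ∈ P, p.Prime
  le : ∀ p ∈ P, p ≤ y
  ne_two : ∀ p ∈ P, p ≠ 2
  not_u : ∀ p ∈ P, ¬ (p : ℤ) ∣ u
  not_v : ∀ p ∈ P, ¬ (p : ℤ) ∣ v
  not_g : ∀ p ∈ P, ¬ p ∣ g
  ell_prime : ∀ p ∈ P, (ell p).Prime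
  ell_large : ∀ p ∈ P, (y : ℝ) ^ (1 / 2 + κ) < (ell p : ℝ)
  ell_dvd : ∀ p ∈ P, ell p ∣ orderOf (g : ZMod p)

variable {g : ℕ} {u v : ℤ} {κ : ℝ} {y : ℕ} {P : Finset ℕ} {ell : ℕ → ℕ}

lemma FF_period {σ : ℕ → ℝ} {p : ℕ} (n : ℕ) :
    FF g u v σ p (n + orderOf (g : ZMod p)) = FF g u v σ p n := by
  have h1 : ((fv g u v (n + orderOf (g : ZMod p)) : ℤ) : ZMod p) = ((fv g u v n : ℤ) : ZMod p) := by
    unfold fv
    push_cast
    rw [pow_add, pow_orderOf_eq_one, mul_one]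
  have h2 : fv g u v (n + orderOf (g : ZMod p)) ≡ fv g u v n [ZMOD p] :=
    (ZMod.intCast_eq_intCast_iff _ _ _).1 h1
  unfold FF
  have h3 : jacobiSym (fv g u v (n + orderOf (g : ZMod p))) p = jacobiSym (fv g u v n) p := by
    rw [jacobiSym.mod_left, h2, ← jacobiSym.mod_left]
  have h4 : (p : ℤ) ∣ fv g u v (n + orderOf (g : ZMod p)) ↔ (p : ℤ) ∣ fv g u v n := by
    rw [← ZMod.intCast_zmod_eq_zero_iff_dvd, ← ZMod.intCast_zmod_eq_zero_iff_dvd, h1]
  rw [h3]
  simp only [h4]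

/-- the mean value over a coset -/
lemma FF_mean {σ : ℕ → ℝ} {p : ℕ} (hp : p.Prime) (h2 : p ≠ 2) (hu : ¬ (p : ℤ) ∣ u)
    (hv : ¬ (p : ℤ) ∣ v) (hg : ¬ p ∣ g) (hσ : σ p = 1 ∨ σ p = -1) {l : ℕ} (hl : l.Prime) (hl2 : l ≠ 2)
    (hld : l ∣ orderOf (g : ZMod p)) (w n : ℕ) (hw : ¬ l ∣ w) :
    ∑ m ∈ range l, FF g u v σ p (n + m * (orderOf (g : ZMod p) / l * w)) ≤ l + Real.sqrt p + 1 := by
  classical
  have hfact : Fact p.Prime := ⟨hp⟩
  set T := orderOf (g : ZMod p) with hT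
  have hTpos : 0 < T := (order_pos hp hg).2
  set H := T / l * w with hH
  have hg0 : (g : ZMod p) ≠ 0 := by
    intro h
    exact hg ((ZMod.natCast_eq_zero_iff g p).1 h)
  have hu0 : (u : ZMod p) ≠ 0 := fun h => hu ((ZMod.intCast_zmod_eq_zero_iff_dvd u p).1 h)
  have hv0 : (v : ZMod p) ≠ 0 := fun h => hv ((ZMod.intCast_zmod_eq_zero_iff_dvd v p).1 h)
  obtain ⟨T', hT'⟩ := hld
  have hT'pos : 0 < T' := by
    rcases Nat.eq_zero_or_pos T' with h | h
    · rw [h, mul_zero] at hT'; omega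
    · exact h
  have hTl : T / l = T' := by rw [hT', Nat.mul_div_cancel_left _ hl.pos]
  -- the order of `z = g ^ H` is `l`
  set z : ZMod p := (g : ZMod p) ^ H with hz
  have hord : orderOf z = l := by
    have hw0 : w ≠ 0 := by
      rintro rfl
      exact hw (dvd_zero l)
    have hH0 : H ≠ 0 := by
      rw [hH, hTl]
      exact Nat.mul_ne_zero hT'pos.ne' hw0
    have hcop : Nat.gcd l w = 1 := (Nat.Prime.coprime_iff_not_dvd hl).2 hw
    rw [hz, orderOf_pow' _ hH0, ← hT, hH, hTl, hT', mul_comm l T', Nat.gcd_mul_left, hcop, mul_one,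
      Nat.mul_div_cancel_left _ hT'pos]
  set a : ZMod p := (u : ZMod p) * (g : ZMod p) ^ n with ha
  have ha0 : a ≠ 0 := mul_ne_zero hu0 (pow_ne_zero _ hg0)
  have hval : ∀ m : ℕ, ((fv g u v (n + m * H) : ℤ) : ZMod p) = a * z ^ m + v := by
    intro m
    unfold fv
    push_cast
    rw [ha, hz, ← pow_mul, mul_comm H m, pow_add]
    ring
  have h1 : ∀ m ∈ range l, FF g u v σ p (n + m * H) =
      1 - σ p * ch p (a * z ^ m + v) + (if a * z ^ m + v = 0 then 1 else 0) := by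
    intro m _
    unfold FF
    rw [jac_eq hp, hval]
    congr 1
    have h3 : (p : ℤ) ∣ fv g u v (n + m * H) ↔ a * z ^ m + (v : ZMod p) = 0 := by
      rw [← hval, ZMod.intCast_zmod_eq_zero_iff_dvd]
    simp only [h3]
  rw [Finset.sum_congr rfl h1, Finset.sum_add_distrib, Finset.sum_sub_distrib, Finset.sum_const,
    Finset.card_range, ← Finset.mul_sum]
  have hlodd : Odd l := hl.odd_of_ne_two hl2
  have h3 := subgroup_sum h2 ha0 hv0 hlodd hord
  have h4 : -(σ p * ∑ m ∈ range l, ch p (a * z ^ m + v)) ≤ Real.sqrt p := by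
    have h5 := abs_le.1 h3
    rcases hσ with h6 | h6 <;> rw [h6] <;> linarith [h5.1, h5.2]
  have h5 : ∑ m ∈ range l, (if a * z ^ m + (v : ZMod p) = 0 then (1 : ℝ) else 0) ≤ 1 := by
    rw [← Finset.sum_filter, Finset.sum_const, nsmul_eq_mul, mul_one]
    have h6 : ((range l).filter (fun m => a * z ^ m + (v : ZMod p) = 0)).card ≤ 1 := by
      rw [Finset.card_le_one]
      intro i hi j hj
      rw [Finset.mem_filter, Finset.mem_range] at hi hj
      have h7 : a * z ^ i = a * z ^ j := by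
        have h8 := hi.2
        have h9 := hj.2
        linear_combination h8 - h9
      have h8 := mul_left_cancel₀ ha0 h7
      exact pow_injOn_Iio_orderOf (Set.mem_Iio.2 (by omega)) (Set.mem_Iio.2 (by omega)) h8
    exact_mod_cast h6
  rw [nsmul_eq_mul, mul_one]
  linarith

/-- the system -/
lemma sys_of_dat (h : Dat g u v κ y P ell) (hκ : 0 < κ) (hy : 4 ≤ y) (σ : ℕ → ℝ)
    (hσ : ∀ p ∈ P, σ p = 1 ∨ σ p = -1) :
    Sys P (FF g u v σ) (fun p => orderOf (g : ZMod p)) ell y ⌊(y : ℝ) ^ (1 / 2 - κ)⌋₊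
      (2 * (y : ℝ) ^ (-κ)) := by
  classical
  have hyr : (4 : ℝ) ≤ y := by exact_mod_cast hy
  have hy0 : (0 : ℝ) < y := by linarith
  have hyk : (0 : ℝ) < (y : ℝ) ^ (1 / 2 + κ) := by positivity
  have hge2 : (2 : ℝ) ≤ (y : ℝ) ^ (1 / 2 + κ) := by
    calc (2 : ℝ) = (4 : ℝ) ^ (1 / 2 : ℝ) := by
          rw [show (4 : ℝ) = 2 ^ (2 : ℝ) by norm_num, ← Real.rpow_mul (by norm_num)]
          norm_num
      _ ≤ (y : ℝ) ^ (1 / 2 : ℝ) := Real.rpow_le_rpow (by norm_num) hyr (by norm_num)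
      _ ≤ (y : ℝ) ^ (1 / 2 + κ) := Real.rpow_le_rpow_of_exponent_le (by linarith) (by linarith)
  have hTd : ∀ p ∈ P, orderOf (g : ZMod p) ∣ p - 1 := fun p hp =>
    orderOf_dvd_of_pow_eq_one (order_pos (h.prime p hp) (h.not_g p hp)).1
  have huniq : ∀ p ∈ P, ∀ q ∈ P, ell p ∣ q - 1 → ell p = ell q := by
    intro p hp q hq hd
    by_contra hne
    have hcop : Nat.Coprime (ell p) (ell q) :=
      (Nat.coprime_primes (h.ell_prime p hp) (h.ell_prime q hq)).2 hne
    have h1 : ell p * ell q ∣ q - 1 :=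
      hcop.mul_dvd_of_dvd_of_dvd hd ((h.ell_dvd q hq).trans (hTd q hq))
    have h2 := (h.prime q hq).two_le
    have h3 := Nat.le_of_dvd (by omega) h1
    have h4 := h.le q hq
    have h5 : (ell p : ℝ) * ell q < y := by exact_mod_cast (by omega : ell p * ell q < y)
    have h6 := h.ell_large p hp
    have h7 := h.ell_large q hq
    have h8 : (y : ℝ) ≤ (y : ℝ) ^ (1 / 2 + κ) * (y : ℝ) ^ (1 / 2 + κ) := by
      rw [← Real.rpow_add hy0]
      calc (y : ℝ) = (y : ℝ) ^ (1 : ℝ) := (Real.rpow_one _).symm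
        _ ≤ _ := Real.rpow_le_rpow_of_exponent_le (by linarith) (by linarith)
    have h9 := mul_lt_mul'' h6 h7 hyk.le hyk.le
    linarith
  refine ⟨?_, ?_, ?_, ?_, ?_, h.ell_prime, h.ell_dvd, ?_, ?_, ?_, by positivity⟩
  · intro p hp n
    rcases FF_val (h.prime p hp) (hσ p hp) (g := g) (u := u) (v := v) n with ⟨_, h2⟩ | ⟨_, h2⟩ <;>
      rw [h2] <;> norm_num
  · intro p hp n
    rcases FF_val (h.prime p hp) (hσ p hp) (g := g) (u := u) (v := v) n with ⟨_, h2⟩ | ⟨_, h2⟩ <;>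
      rw [h2] <;> norm_num
  · intro p hp
    exact (order_pos (h.prime p hp) (h.not_g p hp)).2
  · intro p hp
    have h1 := (h.prime p hp).two_le
    have h2 := Nat.le_of_dvd (by omega) (hTd p hp)
    have h3 := h.le p hp
    show orderOf (g : ZMod p) ≤ y
    omega
  · intro p _ n
    exact FF_period n
  · intro p hp q hq hd
    exact huniq p hp q hq (hd.trans (hTd q hq))
  · intro p hp w n hw
    have hl2 : ell p ≠ 2 := by
      intro h1
      have h2 := h.ell_large p hp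
      rw [h1] at h2
      push_cast at h2
      linarith
    have h1 := FF_mean (h.prime p hp) (h.ne_two p hp) (h.not_u p hp) (h.not_v p hp) (h.not_g p hp)
      (hσ p hp) (h.ell_prime p hp) hl2 (h.ell_dvd p hp) w n hw (g := g) (u := u) (v := v)
    refine h1.trans ?_
    have h3 : Real.sqrt p ≤ Real.sqrt y := Real.sqrt_le_sqrt (by exact_mod_cast h.le p hp)
    have h4 : (1 : ℝ) ≤ Real.sqrt y := Real.one_le_sqrt.2 (by linarith)
    have h5 : Real.sqrt y = (y : ℝ) ^ (-κ) * (y : ℝ) ^ (1 / 2 + κ) := by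
      rw [← Real.rpow_add hy0, Real.sqrt_eq_rpow]
      congr 1
      ring
    have h6 : (y : ℝ) ^ (-κ) * (y : ℝ) ^ (1 / 2 + κ) ≤ (y : ℝ) ^ (-κ) * ell p :=
      mul_le_mul_of_nonneg_left (h.ell_large p hp).le (by positivity)
    nlinarith
  · intro q hq
    set L0 := ell q with hL0
    have hLr := h.ell_large q hq
    rw [← hL0] at hLr
    have hL1 : 1 ≤ L0 := (h.ell_prime q hq).pos
    have h1 : (P.filter (fun p => ell p = L0)).card ≤ (Finset.Icc 1 (y / L0)).card := by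
      apply Finset.card_le_card_of_injOn (fun p => (p - 1) / L0)
      · intro p hp
        rw [Finset.mem_coe, Finset.mem_filter] at hp
        rw [Finset.mem_coe, Finset.mem_Icc]
        have h2 := (h.prime p hp.1).two_le
        have h3 : L0 ∣ p - 1 := by
          rw [← hp.2]
          exact (h.ell_dvd p hp.1).trans (hTd p hp.1)
        constructor
        · exact Nat.div_pos (Nat.le_of_dvd (by omega) h3) hL1
        · exact Nat.div_le_div_right (by have := h.le p hp.1; omega)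
      · intro p hp p' hp' hpp
        rw [Finset.mem_coe, Finset.mem_filter] at hp hp'
        have h2 := (h.prime p hp.1).two_le
        have h2' := (h.prime p' hp'.1).two_le
        have h3 : L0 ∣ p - 1 := by
          rw [← hp.2]
          exact (h.ell_dvd p hp.1).trans (hTd p hp.1)
        have h3' : L0 ∣ p' - 1 := by
          rw [← hp'.2]
          exact (h.ell_dvd p' hp'.1).trans (hTd p' hp'.1)
        have h4 : (p - 1) / L0 = (p' - 1) / L0 := hpp
        have h5 := Nat.div_mul_cancel h3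
        have h5' := Nat.div_mul_cancel h3'
        rw [h4] at h5
        omega
    rw [Nat.card_Icc] at h1
    refine h1.trans ?_
    have h2 : y / L0 + 1 - 1 = y / L0 := Nat.add_sub_cancel _ _
    rw [h2]
    apply Nat.le_floor
    have hLr0 : (0 : ℝ) < L0 := by exact_mod_cast hL1
    refine (Nat.cast_div_le).trans ?_
    rw [div_le_iff₀ hLr0]
    have h3 : (y : ℝ) ^ (1 / 2 - κ) * (y : ℝ) ^ (1 / 2 + κ) = y := by
      rw [← Real.rpow_add hy0]
      have : (1 / 2 - κ + (1 / 2 + κ) : ℝ) = 1 := by ring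
      rw [this, Real.rpow_one]
    calc (y : ℝ) = (y : ℝ) ^ (1 / 2 - κ) * (y : ℝ) ^ (1 / 2 + κ) := h3.symm
      _ ≤ _ := mul_le_mul_of_nonneg_left hLr.le (by positivity)

open Classical in
/-- **The exceptional set for a sign pattern.** -/
theorem count_exc (h : Dat g u v κ y P ell) (hκ : 0 < κ) (hy : 4 ≤ y) (σ : ℕ → ℝ)
    (hσ : ∀ p ∈ P, σ p = 1 ∨ σ p = -1) (N k : ℕ) (hk : y ^ k ≤ N) (hP : P.Nonempty)
    (hpar : (2 * (y : ℝ) ^ (-κ)) * P.card + 2 * (k * (y : ℝ) ^ (1 / 2 - κ)) ≤ P.card / 8) :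
    ((((range N).filter (fun n => 4 * (P.filter (fun p =>
      σ p * (jacobiSym (fv g u v n) p : ℝ) = 1)).card ≤ P.card)).card : ℕ) : ℝ) ≤
      2 * N * (3 / 4) ^ k := by
  have hsys := sys_of_dat h hκ hy σ hσ
  have h1 := exceptional hsys N k hk hP
  have hPc : (0 : ℝ) < P.card := by exact_mod_cast Finset.card_pos.2 hP
  have h2 : (range N).filter (fun n => 4 * (P.filter (fun p =>
      σ p * (jacobiSym (fv g u v n) p : ℝ) = 1)).card ≤ P.card) ⊆
      (range N).filter (fun n => (3 / 2 : ℝ) * P.card ≤ ∑ p ∈ P, FF g u v σ p n) := by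
    intro n hn
    rw [Finset.mem_filter] at hn ⊢
    refine ⟨hn.1, ?_⟩
    set A := P.filter (fun p => σ p * (jacobiSym (fv g u v n) p : ℝ) = 1) with hA
    have h3 : ∑ p ∈ P, FF g u v σ p n = 2 * ((P.card : ℝ) - A.card) := by
      have h4 : ∀ p ∈ P, FF g u v σ p n = 2 - (if p ∈ A then 2 else 0) := by
        intro p hp
        rcases FF_val (h.prime p hp) (hσ p hp) (g := g) (u := u) (v := v) n with
          ⟨h5, h6⟩ | ⟨h5, h6⟩
        · rw [h6, if_pos (by rw [hA, Finset.mem_filter]; exact ⟨hp, h5⟩)]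
          norm_num
        · rw [h6, if_neg (by rw [hA, Finset.mem_filter]; exact fun h7 => h5 h7.2)]
          norm_num
      rw [Finset.sum_congr rfl h4, Finset.sum_sub_distrib, Finset.sum_const, Finset.sum_ite_mem,
        Finset.inter_eq_right.2 (Finset.filter_subset _ _), Finset.sum_const, nsmul_eq_mul,
        nsmul_eq_mul]
      ring
    rw [h3]
    have h4 : 4 * (A.card : ℝ) ≤ P.card := by exact_mod_cast hn.2
    linarith
  have h3 : ((((range N).filter (fun n => 4 * (P.filter (fun p =>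
      σ p * (jacobiSym (fv g u v n) p : ℝ) = 1)).card ≤ P.card)).card : ℕ) : ℝ) *
      ((3 / 2 : ℝ) * P.card) ^ k ≤ 2 * N * (3 / 4 * ((3 / 2 : ℝ) * P.card)) ^ k := by
    refine le_trans ?_ (h1.trans ?_)
    · apply mul_le_mul_of_nonneg_right _ (by positivity)
      exact_mod_cast Finset.card_le_card h2
    · apply mul_le_mul_of_nonneg_left _ (by positivity)
      apply pow_le_pow_left₀ (by positivity)
      have h4 : ((⌊(y : ℝ) ^ (1 / 2 - κ)⌋₊ : ℕ) : ℝ) ≤ (y : ℝ) ^ (1 / 2 - κ) :=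
        Nat.floor_le (by positivity)
      have h5 : (k : ℝ) * ((⌊(y : ℝ) ^ (1 / 2 - κ)⌋₊ : ℕ) : ℝ) ≤ k * (y : ℝ) ^ (1 / 2 - κ) :=
        mul_le_mul_of_nonneg_left h4 (Nat.cast_nonneg _)
      linarith
  rw [mul_pow (3 / 4 : ℝ), ← mul_assoc] at h3
  exact le_of_mul_le_mul_right h3 (by positivity)

end Pool.Agent.V8H10.EX
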