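import Mathlib
import Pool.Agent.V8H10.EX.Fn

/-!
# Small split primes in the fields `ℚ(√(u g ^ n + v))`
-/

set_option autoImplicit false

open Finset Filter

namespace Pool.Agent.V8H10.EX

/-- the discriminants of the quadratic fields, and `1` -/
def Fund (d : ℤ) : Prop := (d % 4 = 1 ∧ Squarefree d) ∨
  (∃ m : ℤ, d = 4 * m ∧ (m % 4 = 2 ∨ m % 4 = 3) ∧ Squarefree m)

/-- `p` splits in the field of discriminant `d` -/
def Splits (d : ℤ) (p : ℕ) : Prop := ¬ (p : ℤ) ∣ d ∧ ∃ x : ℤ, (4 * (p : ℤ)) ∣ x ^ 2 - d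

lemma Fund.ne_zero {d : ℤ} (h : Fund d) : d ≠ 0 := by
  rcases h with ⟨_, h⟩ | ⟨m, rfl, _, h⟩
  · exact h.ne_zero
  · have := h.ne_zero
    omega

lemma splits_of {d f : ℤ} {p : ℕ} (hp : p.Prime) (h2 : p ≠ 2) (hd : Fund d) (hsq : IsSquare (f * d))
    (hJ : jacobiSym f p = 1) : Splits d p := by
  have hfact : Fact p.Prime := ⟨hp⟩
  have hpI : Prime (p : ℤ) := Nat.prime_iff_prime_int.1 hp
  have hpodd : (p : ℤ) % 2 = 1 := by
    have := hp.eq_two_or_odd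
    omega
  have hpf : ¬ (p : ℤ) ∣ f := by
    intro h
    have h1 : jacobiSym f p = 0 := by
      rw [← jacobiSym.legendreSym.to_jacobiSym, legendreSym.eq_zero_iff]
      exact (ZMod.intCast_zmod_eq_zero_iff_dvd _ p).2 h
    rw [h1] at hJ
    norm_num at hJ
  obtain ⟨w, hw⟩ := hsq
  have hpd : ¬ (p : ℤ) ∣ d := by
    intro h
    have h1 : (p : ℤ) ∣ w := by
      have h3 : (p : ℤ) ∣ w * w := by rw [← hw]; exact h.mul_left f
      rcases hpI.dvd_or_dvd h3 with h4 | h4 <;> exact h4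
    have h3 : (p : ℤ) * p ∣ f * d := by rw [hw]; exact mul_dvd_mul h1 h1
    have hcop : IsCoprime ((p : ℤ) * p) f := by
      have h5 : IsCoprime (p : ℤ) f := (hpI.coprime_iff_not_dvd).2 hpf
      exact h5.mul_left h5
    have h4 : (p : ℤ) * p ∣ d := hcop.dvd_of_dvd_mul_left h3
    rcases hd with ⟨_, h5⟩ | ⟨m, hm, _, h5⟩
    · exact hpI.not_isUnit (h5 _ h4)
    · have hcop2 : IsCoprime ((p : ℤ) * p) 4 := by
        have h6 : IsCoprime (p : ℤ) 2 := by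
          rw [Int.isCoprime_iff_gcd_eq_one]
          have h7 : Nat.Coprime p 2 := (Nat.coprime_primes hp Nat.prime_two).2 h2
          exact_mod_cast h7
        have h7 : IsCoprime (p : ℤ) 4 := by
          have h8 := h6.mul_right h6
          norm_num at h8
          exact h8
        exact h7.mul_left h7
      rw [hm] at h4
      exact hpI.not_isUnit (h5 _ (hcop2.dvd_of_dvd_mul_left h4))
  refine ⟨hpd, ?_⟩
  have hd0 : (d : ZMod p) ≠ 0 := fun h => hpd ((ZMod.intCast_zmod_eq_zero_iff_dvd d p).1 h)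
  have hf0 : (f : ZMod p) ≠ 0 := fun h => hpf ((ZMod.intCast_zmod_eq_zero_iff_dvd f p).1 h)
  have h1 : jacobiSym (f * d) p = 1 := by
    rw [hw, ← jacobiSym.legendreSym.to_jacobiSym, legendreSym.eq_one_iff p (by
      rw [← hw]
      push_cast
      exact mul_ne_zero hf0 hd0)]
    exact ⟨(w : ZMod p), by push_cast; ring⟩
  rw [jacobiSym.mul_left, hJ, one_mul, ← jacobiSym.legendreSym.to_jacobiSym,
    legendreSym.eq_one_iff p hd0] at h1
  obtain ⟨z, hz⟩ := h1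
  have hx : ∃ x : ℤ, (p : ℤ) ∣ x ^ 2 - d := by
    refine ⟨(z.val : ℤ), ?_⟩
    rw [← ZMod.intCast_zmod_eq_zero_iff_dvd]
    push_cast
    rw [ZMod.natCast_val, ZMod.cast_id', id_eq, hz]
    ring
  obtain ⟨x, hx⟩ := hx
  have hx2 : ∃ x : ℤ, (p : ℤ) ∣ x ^ 2 - d ∧ x % 2 = d % 2 := by
    by_cases hpar : x % 2 = d % 2
    · exact ⟨x, hx, hpar⟩
    · refine ⟨x + p, ?_, by omega⟩
      have h3 : (x + (p : ℤ)) ^ 2 - d = (x ^ 2 - d) + p * (2 * x + p) := by ring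
      rw [h3]
      exact dvd_add hx (dvd_mul_right _ _)
  obtain ⟨x, hx, hpar⟩ := hx2
  refine ⟨x, ?_⟩
  have h4 : (4 : ℤ) ∣ x ^ 2 - d := by
    rcases hd with ⟨h5, _⟩ | ⟨m, hm, _, _⟩
    · obtain ⟨j, hj⟩ : ∃ j, x = 2 * j + 1 := ⟨x / 2, by omega⟩
      obtain ⟨i, hi⟩ : ∃ i, d = 4 * i + 1 := ⟨d / 4, by omega⟩
      rw [hj, hi]
      exact ⟨j ^ 2 + j - i, by ring⟩
    · obtain ⟨j, hj⟩ : ∃ j, x = 2 * j := ⟨x / 2, by omega⟩
      rw [hj, hm]
      exact ⟨j ^ 2 - m, by ring⟩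
  have hcop : IsCoprime (4 : ℤ) (p : ℤ) := by
    have h6 : IsCoprime (2 : ℤ) (p : ℤ) := by
      rw [Int.isCoprime_iff_gcd_eq_one]
      have h7 : Nat.Coprime 2 p := (Nat.coprime_primes Nat.prime_two hp).2 (Ne.symm h2)
      exact_mod_cast h7
    have h8 := h6.mul_left h6
    norm_num at h8
    exact h8
  exact hcop.mul_dvd h4 hx

/-- a nonzero integer with few prime factors -/
lemma omega_le {b : ℤ} (hb : b ≠ 0) {X : ℕ} (hX : 1 ≤ X) (h : |b| ≤ (X : ℤ) ^ 3) :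
    (b.natAbs.primeFactors.card : ℝ) ≤ 5 * Real.log X := by
  have h1 : 2 ^ b.natAbs.primeFactors.card ≤ ∏ p ∈ b.natAbs.primeFactors, p := by
    apply Finset.pow_card_le_prod
    intro p hp
    exact (Nat.prime_of_mem_primeFactors hp).two_le
  have h2 : 2 ^ b.natAbs.primeFactors.card ≤ b.natAbs :=
    h1.trans (Nat.le_of_dvd (Nat.pos_of_ne_zero (Int.natAbs_ne_zero.2 hb))
      (Nat.prod_primeFactors_dvd _))
  have h3 : b.natAbs ≤ X ^ 3 := by
    have h4 := Int.abs_eq_natAbs b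
    rw [h4] at h
    exact_mod_cast h
  have h4 : ((2 : ℝ) ^ b.natAbs.primeFactors.card) ≤ (X : ℝ) ^ 3 := by exact_mod_cast h2.trans h3
  have hXr : (0 : ℝ) < X := by exact_mod_cast hX
  have h5 := Real.log_le_log (by positivity) h4
  rw [Real.log_pow, Real.log_pow] at h5
  have h6 := Real.log_two_gt_d9
  have h7 : (0 : ℝ) ≤ (b.natAbs.primeFactors.card : ℝ) := Nat.cast_nonneg _
  have h8 : 0 ≤ Real.log X := Real.log_natCast_nonneg X
  push_cast at h5
  nlinarith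

open Classical in
/-- the general estimate -/
theorem gen : ∃ κ c : ℝ, 0 < κ ∧ 0 < c ∧ ∀ g : ℕ, 2 ≤ g → ∀ᶠ X : ℕ in atTop, ∀ y : ℕ,
    Real.log X ^ 2 / 2000 ≤ y → y ≤ X → ∀ u v d : ℤ, u ≠ 0 → v ≠ 0 → d ≠ 0 → |u| ≤ X → |v| ≤ X →
    |d| ≤ X → ∃ P : Finset ℕ, (∀ p ∈ P, p.Prime ∧ p ≤ y ∧ p ≠ 2 ∧ ¬ (p : ℤ) ∣ d) ∧
      c * (y / Real.log y) ≤ P.card ∧ P.Nonempty ∧
      ∀ σ : ℕ → ℝ, (∀ p ∈ P, σ p = 1 ∨ σ p = -1) →
      ((((range X).filter (fun n => 4 * (P.filter (fun p =>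
        σ p * (jacobiSym (fv g u v n) p : ℝ) = 1)).card ≤ P.card)).card : ℕ) : ℝ) ≤
        2 * X * (3 / 4) ^ ⌊Real.log X / Real.log y⌋₊ := by
  obtain ⟨κ, c, hκ, hκ4, hc, hgood⟩ := good_primes
  refine ⟨κ, c, hκ, hc, fun g hg => ?_⟩
  obtain ⟨T, hT⟩ := hgood g hg
  -- conditions on `y`
  have hevy : ∀ᶠ y : ℕ in atTop, T ≤ y ∧ 4 ≤ y ∧ 32 ≤ (y : ℝ) ^ κ ∧ 1440 / c ≤ (y : ℝ) ^ κ ∧
      225 / c * Real.log y ≤ (y : ℝ) ^ (1 / 2 : ℝ) ∧ 1 ≤ c * (y / Real.log y) := by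
    have h1 : Tendsto (fun y : ℕ => (y : ℝ) ^ κ) atTop atTop :=
      (tendsto_rpow_atTop hκ).comp tendsto_natCast_atTop_atTop
    have hev : ∀ A s : ℝ, 0 < A → 0 < s → ∀ᶠ t : ℕ in atTop, A * Real.log t ≤ (t : ℝ) ^ s := by
      intro A s hA hs
      have h1 := (isLittleO_log_rpow_atTop hs).bound (show (0 : ℝ) < 1 / A by positivity)
      have h2 := tendsto_natCast_atTop_atTop (R := ℝ) |>.eventually h1
      filter_upwards [h2, eventually_ge_atTop 1] with t ht ht1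
      have ht0 : (1 : ℝ) ≤ t := by exact_mod_cast ht1
      rw [Real.norm_of_nonneg (Real.log_nonneg ht0), Real.norm_of_nonneg (by positivity)] at ht
      have h3 := mul_le_mul_of_nonneg_left ht hA.le
      refine h3.trans (le_of_eq ?_)
      field_simp
    filter_upwards [eventually_ge_atTop T, eventually_ge_atTop 4, h1.eventually_ge_atTop 32,
      h1.eventually_ge_atTop (1440 / c), hev (225 / c) (1 / 2) (by positivity) (by norm_num),
      hev (1 / c) 1 (by positivity) one_pos] with y g1 g2 g3 g4 g5 g6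
    refine ⟨g1, g2, g3, g4, g5, ?_⟩
    rw [Real.rpow_one] at g6
    have hlog : 0 < Real.log y := Real.log_pos (by exact_mod_cast (by omega : 1 < y))
    rw [← mul_div_assoc, le_div_iff₀ hlog, one_mul]
    have h3 := mul_le_mul_of_nonneg_left g6 hc.le
    refine le_trans (le_of_eq ?_) h3
    field_simp
  obtain ⟨Y0, hY0⟩ := eventually_atTop.1 hevy
  have hlogX : Tendsto (fun X : ℕ => Real.log (X : ℝ)) atTop atTop :=
    Real.tendsto_log_atTop.comp tendsto_natCast_atTop_atTop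
  filter_upwards [hlogX.eventually_ge_atTop (2000 * (Y0 + 1)), eventually_ge_atTop 1]
    with X hX1 hX2 y hy1 hy2 u v d hu hv hd huX hvX hdX
  have hX2r : (1 : ℝ) ≤ X := by exact_mod_cast hX2
  have hY0r : (0 : ℝ) ≤ Y0 := Nat.cast_nonneg _
  have hyY : Y0 ≤ y := by
    have h1 : (Y0 : ℝ) ≤ y := by
      refine le_trans ?_ hy1
      rw [le_div_iff₀ (by norm_num)]
      nlinarith
    exact_mod_cast h1
  obtain ⟨g1, g2, g3, g4, g5, g6⟩ := hY0 y hyY
  have hyr : (4 : ℝ) ≤ y := by exact_mod_cast g2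
  have hy0 : (0 : ℝ) < y := by linarith
  have hlogy : 1 ≤ Real.log y := by
    rw [Real.le_log_iff_exp_le hy0]
    have := Real.exp_one_lt_d9
    linarith
  have hlogy0 : 0 < Real.log y := by linarith
  have hlogX0 : 0 ≤ Real.log X := Real.log_nonneg hX2r
  -- `log X ≤ 45 √y`
  have hLX : Real.log X ≤ 45 * (y : ℝ) ^ (1 / 2 : ℝ) := by
    have h1 : ((y : ℝ) ^ (1 / 2 : ℝ)) ^ 2 = y := by
      rw [← Real.rpow_natCast, ← Real.rpow_mul hy0.le]
      norm_num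
    have h2 : Real.log X ^ 2 ≤ (45 * (y : ℝ) ^ (1 / 2 : ℝ)) ^ 2 := by
      rw [mul_pow, h1]
      rw [div_le_iff₀ (by norm_num)] at hy1
      linarith
    exact le_of_sq_le_sq h2 (by positivity)
  have hb : u * v * d ≠ 0 := mul_ne_zero (mul_ne_zero hu hv) hd
  have hbX : |u * v * d| ≤ (X : ℤ) ^ 3 := by
    rw [abs_mul, abs_mul]
    calc |u| * |v| * |d| ≤ X * X * X := by
          apply mul_le_mul (mul_le_mul huX hvX (abs_nonneg _) (by positivity)) hdX (abs_nonneg _)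
            (by positivity)
      _ = (X : ℤ) ^ 3 := by ring
  have hω := omega_le hb hX2 hbX
  have hyhalf : (y : ℝ) ^ (1 / 2 : ℝ) * (y : ℝ) ^ (1 / 2 : ℝ) = y := by
    rw [← Real.rpow_add hy0]
    norm_num
  have hω2 : ((u * v * d).natAbs.primeFactors.card : ℝ) ≤ c * (y / Real.log y) := by
    refine hω.trans ?_
    rw [← mul_div_assoc, le_div_iff₀ hlogy0]
    have h1 : 5 * Real.log X * Real.log y ≤ 225 * (y : ℝ) ^ (1 / 2 : ℝ) * Real.log y := by
      apply mul_le_mul_of_nonneg_right _ hlogy0.le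
      linarith
    have h2 : 225 * (y : ℝ) ^ (1 / 2 : ℝ) * Real.log y =
        c * ((y : ℝ) ^ (1 / 2 : ℝ) * (225 / c * Real.log y)) := by field_simp
    have h3 : c * ((y : ℝ) ^ (1 / 2 : ℝ) * (225 / c * Real.log y)) ≤
        c * ((y : ℝ) ^ (1 / 2 : ℝ) * (y : ℝ) ^ (1 / 2 : ℝ)) := by
      apply mul_le_mul_of_nonneg_left _ hc.le
      exact mul_le_mul_of_nonneg_left g5 (by positivity)
    rw [hyhalf] at h3
    linarith
  obtain ⟨P, ell, hP1, hP2⟩ := hT y g1 (u * v * d) hb hω2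
  have hPne : P.Nonempty := by
    rw [← Finset.card_pos]
    have : (0 : ℝ) < P.card := by linarith
    exact_mod_cast this
  have hdat : Dat g u v κ y P ell := by
    refine ⟨fun p hp => (hP2 p hp).1.1, fun p hp => (hP2 p hp).1.2.1,
      fun p hp => (hP2 p hp).1.2.2.1, fun p hp h => (hP2 p hp).1.2.2.2.1 ?_,
      fun p hp h => (hP2 p hp).1.2.2.2.1 ?_, fun p hp => (hP2 p hp).1.2.2.2.2,
      fun p hp => (hP2 p hp).2.1, fun p hp => (hP2 p hp).2.2.1, fun p hp => (hP2 p hp).2.2.2⟩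
    · exact (h.mul_right v).mul_right d
    · exact (h.mul_left u).mul_right d
  refine ⟨P, fun p hp => ⟨(hP2 p hp).1.1, (hP2 p hp).1.2.1, (hP2 p hp).1.2.2.1,
    fun h => (hP2 p hp).1.2.2.2.1 (h.mul_left (u * v))⟩, hP1, hPne, fun σ hσ => ?_⟩
  have hkfl : ((⌊Real.log X / Real.log y⌋₊ : ℕ) : ℝ) ≤ Real.log X / Real.log y :=
    Nat.floor_le (by positivity)
  apply count_exc hdat hκ g2 σ hσ X _ _ hPne
  · -- parameters
    have h1 : 2 * (y : ℝ) ^ (-κ) ≤ 1 / 16 := by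
      rw [Real.rpow_neg hy0.le, ← div_eq_mul_inv, div_le_div_iff₀ (by positivity) (by norm_num)]
      linarith
    have hPc0 : (0 : ℝ) ≤ P.card := Nat.cast_nonneg _
    have h2 : 2 * (y : ℝ) ^ (-κ) * P.card ≤ P.card / 16 := by
      have := mul_le_mul_of_nonneg_right h1 hPc0
      linarith
    have h3 : 2 * (((⌊Real.log X / Real.log y⌋₊ : ℕ) : ℝ) * (y : ℝ) ^ (1 / 2 - κ)) ≤
        P.card / 16 := by
      have h4 : ((⌊Real.log X / Real.log y⌋₊ : ℕ) : ℝ) * (y : ℝ) ^ (1 / 2 - κ) ≤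
          (Real.log X / Real.log y) * (y : ℝ) ^ (1 / 2 - κ) :=
        mul_le_mul_of_nonneg_right hkfl (by positivity)
      have h5 : 32 * ((Real.log X / Real.log y) * (y : ℝ) ^ (1 / 2 - κ)) ≤
          c * (y / Real.log y) := by
        rw [← mul_div_assoc, div_mul_eq_mul_div, mul_div_assoc', div_le_div_iff_of_pos_right hlogy0]
        have h6 : (y : ℝ) ^ (1 / 2 : ℝ) * (y : ℝ) ^ (1 / 2 - κ) * (y : ℝ) ^ κ = y := by
          rw [← Real.rpow_add hy0, ← Real.rpow_add hy0]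
          have : (1 / 2 + (1 / 2 - κ) + κ : ℝ) = 1 := by ring
          rw [this, Real.rpow_one]
        have h7 : 32 * (Real.log X * (y : ℝ) ^ (1 / 2 - κ)) ≤
            1440 * ((y : ℝ) ^ (1 / 2 : ℝ) * (y : ℝ) ^ (1 / 2 - κ)) := by
          have := mul_le_mul_of_nonneg_right hLX
            (show (0 : ℝ) ≤ (y : ℝ) ^ (1 / 2 - κ) by positivity)
          nlinarith
        refine h7.trans ?_
        have h8 : 1440 * ((y : ℝ) ^ (1 / 2 : ℝ) * (y : ℝ) ^ (1 / 2 - κ)) =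
            c * ((y : ℝ) ^ (1 / 2 : ℝ) * (y : ℝ) ^ (1 / 2 - κ) * (1440 / c)) := by field_simp
        rw [h8]
        apply mul_le_mul_of_nonneg_left _ hc.le
        calc (y : ℝ) ^ (1 / 2 : ℝ) * (y : ℝ) ^ (1 / 2 - κ) * (1440 / c)
            ≤ (y : ℝ) ^ (1 / 2 : ℝ) * (y : ℝ) ^ (1 / 2 - κ) * (y : ℝ) ^ κ :=
              mul_le_mul_of_nonneg_left g4 (by positivity)
          _ = y := h6
      linarith
    linarith
  · -- `y ^ k ≤ X`
    have h1 : (y : ℝ) ^ ⌊Real.log X / Real.log y⌋₊ ≤ X := by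
      rw [← Real.exp_log (show 0 < (y : ℝ) ^ ⌊Real.log X / Real.log y⌋₊ by positivity),
        Real.log_pow, ← Real.exp_log (show (0 : ℝ) < X by linarith)]
      apply Real.exp_le_exp.2
      rw [Real.exp_log (by linarith)]
      rw [le_div_iff₀ hlogy0] at hkfl
      exact hkfl
    exact_mod_cast h1

end Pool.Agent.V8H10.EX
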