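import Mathlib
import Pool.Agent.V8H10.EX.Main

/-!
# Small split primes in the fields `ℚ(√(u g ^ n + v))`: the final estimates
-/

set_option autoImplicit false

open Finset Filter

namespace Pool.Agent.V8H10.EX

/-- the number of the primes `p ≤ y` which split -/
noncomputable def S (d : ℤ) (y : ℕ) : ℕ := Set.ncard {p : ℕ | p.Prime ∧ p ≤ y ∧ Splits d p}

/-- the threshold `(log |d|) ^ 2 (log log |d|) ^ 2` -/
noncomputable def threshold (d : ℤ) : ℝ := Real.log |(d : ℝ)| ^ 2 * Real.log (Real.log |(d : ℝ)|) ^ 2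

/-- the number of split primes below the threshold -/
noncomputable def Nsplit (d : ℤ) : ℕ := Set.ncard {p : ℕ | p.Prime ∧ (p : ℝ) < threshold d ∧ Splits d p}

lemma exp_quarter : Real.exp (1 / 4) ≤ 4 / 3 := by
  have h1 : Real.exp (1 / 4) ^ 4 ≤ (4 / 3 : ℝ) ^ 4 := by
    rw [← Real.exp_nat_mul]
    norm_num
    have := Real.exp_one_lt_d9
    linarith
  exact le_of_pow_le_pow_left₀ (by norm_num) (by norm_num) h1

lemma three_quarter_pow (k : ℕ) : (3 / 4 : ℝ) ^ k ≤ Real.exp (-(k / 4)) := by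
  have h1 : (3 / 4 : ℝ) ≤ Real.exp (-(1 / 4)) := by
    rw [Real.exp_neg, ← one_div, le_div_iff₀ (Real.exp_pos _)]
    have := exp_quarter
    nlinarith
  calc (3 / 4 : ℝ) ^ k ≤ (Real.exp (-(1 / 4))) ^ k := pow_le_pow_left₀ (by norm_num) h1 k
    _ = Real.exp (-(k / 4)) := by
        rw [← Real.exp_nat_mul]
        congr 1
        ring

lemma pow_floor (x : ℝ) : (3 / 4 : ℝ) ^ ⌊x⌋₊ ≤ 4 / 3 * Real.exp (-(x / 4)) := by
  refine (three_quarter_pow _).trans ?_
  have h1 : x - 1 ≤ (⌊x⌋₊ : ℝ) := by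
    have := Nat.lt_floor_add_one x
    linarith
  calc Real.exp (-((⌊x⌋₊ : ℝ) / 4)) ≤ Real.exp (1 / 4 + -(x / 4)) := by
        apply Real.exp_le_exp.2
        linarith
    _ = Real.exp (1 / 4) * Real.exp (-(x / 4)) := Real.exp_add _ _
    _ ≤ _ := mul_le_mul_of_nonneg_right exp_quarter (Real.exp_pos _).le

lemma jac_square_nonneg (w : ℤ) (p : ℕ) : 0 ≤ jacobiSym (w * w) p := by
  rw [jacobiSym.mul_left]
  exact mul_self_nonneg _

/-- `d Q(√...)`: the split primes -/
lemma card_le_S {d f : ℤ} {y : ℕ} (hd : Fund d) (hsq : IsSquare (f * d)) (A : Finset ℕ)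
    (hA : ∀ p ∈ A, p.Prime ∧ p ≤ y ∧ p ≠ 2 ∧ (jacobiSym f p : ℝ) = 1) : A.card ≤ S d y := by
  unfold S
  rw [← Set.ncard_coe_finset]
  apply Set.ncard_le_ncard
  · intro p hp
    obtain ⟨h1, h2, h3, h4⟩ := hA p hp
    refine ⟨h1, h2, splits_of h1 h3 hd hsq ?_⟩
    exact_mod_cast h4
  · exact (Set.finite_Iic y).subset fun p hp => hp.2.1

lemma card_le_N {d f : ℤ} {y : ℕ} (hd : Fund d) (hsq : IsSquare (f * d)) (A : Finset ℕ)
    (hy : (y : ℝ) < threshold d)
    (hA : ∀ p ∈ A, p.Prime ∧ p ≤ y ∧ p ≠ 2 ∧ (jacobiSym f p : ℝ) = 1) : A.card ≤ Nsplit d := by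
  unfold Nsplit
  rw [← Set.ncard_coe_finset]
  apply Set.ncard_le_ncard
  · intro p hp
    obtain ⟨h1, h2, h3, h4⟩ := hA p hp
    refine ⟨h1, ?_, splits_of h1 h3 hd hsq ?_⟩
    · have : (p : ℝ) ≤ y := by exact_mod_cast h2
      linarith
    · exact_mod_cast h4
  · refine (Set.finite_Iic ⌊threshold d⌋₊).subset fun p hp => ?_
    exact Nat.le_floor hp.2.1.le

open Classical in
/-- the final theorem -/
theorem main : ∃ c : ℝ, 0 < c ∧ ∀ g : ℕ, 2 ≤ g → ∃ X₀ : ℕ, ∀ X : ℕ, X₀ ≤ X → ∀ u v : ℤ,
    u ≠ 0 → v ≠ 0 → |u| ≤ X → |v| ≤ X →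
    (∀ y : ℕ, Real.log X ^ 2 ≤ y → y ≤ X →
      ({n : ℕ | n < X ∧ ¬ ∀ d : ℤ, Fund d → IsSquare ((u * (g : ℤ) ^ n + v) * d) →
        c * (y / Real.log y) ≤ S d y}.ncard : ℝ) ≤
      3 * X * Real.exp (-(Real.log X / (4 * Real.log y)))) ∧
    ({n : ℕ | n < X ∧ ¬ (u * (g : ℤ) ^ n + v ≠ 0 ∧ ∀ d : ℤ, Fund d →
        IsSquare ((u * (g : ℤ) ^ n + v) * d) →
        c * (Real.log X ^ 2 / Real.log (Real.log X)) ≤ Nsplit d)}.ncard : ℝ) ≤
      X * Real.exp (-(c * (Real.log X / Real.log (Real.log X)))) := by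
  obtain ⟨κ, c, hκ, hc, hgen⟩ := gen
  obtain ⟨c', hc'⟩ : ∃ c', c' = min (c / 16000) (1 / 17) := ⟨_, rfl⟩
  have hc'0 : 0 < c' := by rw [hc']; positivity
  have hc'1 : c' ≤ c / 16000 := by rw [hc']; exact min_le_left _ _
  have hc'2 : c' ≤ 1 / 17 := by rw [hc']; exact min_le_right _ _
  refine ⟨c', hc'0, fun g hg => ?_⟩
  have hlogX : Tendsto (fun X : ℕ => Real.log (X : ℝ)) atTop atTop :=
    Real.tendsto_log_atTop.comp tendsto_natCast_atTop_atTop
  have hll : Tendsto (fun X : ℕ => Real.log (Real.log (X : ℝ))) atTop atTop :=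
    Real.tendsto_log_atTop.comp hlogX
  have hev : ∀ A s : ℝ, 0 < A → 0 < s → ∀ᶠ t : ℝ in atTop, A * Real.log t ≤ t ^ s := by
    intro A s hA hs
    have h1 := (isLittleO_log_rpow_atTop hs).bound (show (0 : ℝ) < 1 / A by positivity)
    filter_upwards [h1, eventually_ge_atTop (1 : ℝ)] with t ht ht1
    rw [Real.norm_of_nonneg (Real.log_nonneg ht1), Real.norm_of_nonneg (by positivity)] at ht
    have h3 := mul_le_mul_of_nonneg_left ht hA.le
    refine h3.trans (le_of_eq ?_)
    field_simp
  have e1 := hlogX.eventually (hev 10000 1 (by norm_num) one_pos)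
  have e2 := hll.eventually (hev 10 1 (by norm_num) one_pos)
  obtain ⟨X₀, hX₀⟩ := eventually_atTop.1 ((hgen g hg).and (e1.and (e2.and
    ((hll.eventually_ge_atTop 1000).and ((hlogX.eventually_ge_atTop 1000).and
      (eventually_ge_atTop 1))))))
  refine ⟨X₀, fun X hX u v hu hv huX hvX => ?_⟩
  obtain ⟨hG, g1, g2, g3, g4, g5⟩ := hX₀ X hX
  rw [Real.rpow_one] at g1 g2
  have hX1 : (1 : ℝ) ≤ X := by exact_mod_cast g5
  obtain ⟨l, hl⟩ : ∃ l, l = Real.log (X : ℝ) := ⟨_, rfl⟩
  rw [← hl] at g1 g2 g3 g4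
  obtain ⟨m, hm⟩ : ∃ m, m = Real.log l := ⟨_, rfl⟩
  rw [← hm] at g1 g2 g3
  have hl0 : 0 < l := by linarith
  have hm0 : 0 < m := by linarith
  have hone : |(1 : ℤ)| ≤ (X : ℤ) := by
    rw [abs_one]
    exact_mod_cast g5
  constructor
  · intro y hy1 hy2
    rw [← hl] at hy1 ⊢
    have hy0 : (1000000 : ℝ) ≤ y := by nlinarith
    have hlogy : 0 < Real.log y := Real.log_pos (by linarith)
    obtain ⟨P, hP1, hP2, hP3, hP4⟩ := hG y (by rw [← hl]; nlinarith) hy2 u v 1 hu hv one_ne_zero
      huX hvX hone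
    have h1 := hP4 (fun _ => 1) (fun _ _ => Or.inl rfl)
    rw [← hl] at h1
    have h2 := pow_floor (l / Real.log y)
    have hsub : {n : ℕ | n < X ∧ ¬ ∀ d : ℤ, Fund d → IsSquare ((u * (g : ℤ) ^ n + v) * d) →
        c' * (y / Real.log y) ≤ S d y} ⊆
        (((range X).filter (fun n => 4 * (P.filter (fun p =>
        (1 : ℝ) * (jacobiSym (fv g u v n) p : ℝ) = 1)).card ≤ P.card) : Finset ℕ) : Set ℕ) := by
      intro n hn
      rw [Finset.mem_coe, Finset.mem_filter, Finset.mem_range]
      refine ⟨hn.1, ?_⟩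
      by_contra hcon
      apply hn.2
      intro d hd hsq
      set A := P.filter (fun p => (1 : ℝ) * (jacobiSym (fv g u v n) p : ℝ) = 1) with hA
      have h3 := card_le_S hd hsq A (y := y) (fun p hp => by
        rw [hA, Finset.mem_filter, one_mul] at hp
        exact ⟨(hP1 p hp.1).1, (hP1 p hp.1).2.1, (hP1 p hp.1).2.2.1, hp.2⟩)
      have h4 : (P.card : ℝ) < 4 * A.card := by exact_mod_cast (not_le.1 hcon)
      have h5 : (A.card : ℝ) ≤ S d y := by exact_mod_cast h3
      have h6 : 0 ≤ (y : ℝ) / Real.log y := by positivity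
      have h7 : c' * (y / Real.log y) ≤ c / 16000 * (y / Real.log y) :=
        mul_le_mul_of_nonneg_right hc'1 h6
      nlinarith
    calc _ ≤ ((((range X).filter (fun n => 4 * (P.filter (fun p =>
        (1 : ℝ) * (jacobiSym (fv g u v n) p : ℝ) = 1)).card ≤ P.card)).card : ℕ) : ℝ) := by
          rw [← Set.ncard_coe_finset]
          exact_mod_cast Set.ncard_le_ncard hsub (Finset.finite_toSet _)
      _ ≤ 2 * X * (3 / 4) ^ ⌊l / Real.log y⌋₊ := h1
      _ ≤ 2 * X * (4 / 3 * Real.exp (-(l / Real.log y / 4))) :=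
          mul_le_mul_of_nonneg_left h2 (by positivity)
      _ ≤ 3 * X * Real.exp (-(l / (4 * Real.log y))) := by
          have h3 : l / Real.log y / 4 = l / (4 * Real.log y) := by
            rw [div_div]
            congr 1
            ring
          rw [h3]
          have h4 : 0 < Real.exp (-(l / (4 * Real.log y))) := Real.exp_pos _
          nlinarith [mul_pos (show (0 : ℝ) < X by linarith) h4]
  · rw [← hl, ← hm]
    -- the choice of `y`
    obtain ⟨y, hy⟩ : ∃ y, y = ⌈l ^ 2 / 2000⌉₊ := ⟨_, rfl⟩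
    have hl2 : (1000000 : ℝ) ≤ l ^ 2 := by nlinarith
    have hy1 : l ^ 2 / 2000 ≤ y := by rw [hy]; exact Nat.le_ceil _
    have hy2 : (y : ℝ) ≤ l ^ 2 / 1200 := by
      have h1 : (y : ℝ) < l ^ 2 / 2000 + 1 := by rw [hy]; exact Nat.ceil_lt_add_one (by positivity)
      nlinarith
    have hyX : y ≤ X := by
      have h1 : (y : ℝ) ≤ X := by
        have h2 := Real.quadratic_le_exp_of_nonneg hl0.le
        rw [hl, Real.exp_log (by linarith)] at h2
        rw [← hl] at h2
        nlinarith
      exact_mod_cast h1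
    have hy0 : (500 : ℝ) ≤ y := by nlinarith
    have hlogy0 : 0 < Real.log y := Real.log_pos (by linarith)
    have hlogy : Real.log y ≤ 2 * m := by
      have h1 : Real.log y ≤ Real.log (l ^ 2) := Real.log_le_log (by linarith) (by nlinarith)
      rw [Real.log_pow, ← hm] at h1
      exact_mod_cast h1
    obtain ⟨k, hk⟩ : ∃ k, k = ⌊l / Real.log y⌋₊ := ⟨_, rfl⟩
    have hk1 : l / (2 * m) - 1 ≤ k := by
      have h1 : l / Real.log y < (k : ℝ) + 1 := by rw [hk]; exact Nat.lt_floor_add_one _
      have h2 : l / (2 * m) ≤ l / Real.log y := div_le_div_of_nonneg_left hl0.le hlogy0 hlogy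
      linarith
    have hk2 : (k : ℝ) ≤ l := by
      have h1 : (k : ℝ) ≤ l / Real.log y := by rw [hk]; exact Nat.floor_le (by positivity)
      refine h1.trans (div_le_self hl0.le ?_)
      rw [Real.le_log_iff_exp_le (by linarith)]
      have := Real.exp_one_lt_d9
      linarith
    have hlm : 5000 ≤ l / (2 * m) := by
      rw [le_div_iff₀ (by positivity)]
      linarith
    obtain ⟨D, hD⟩ : ∃ D, D = ⌊Real.exp (k / 8)⌋₊ := ⟨_, rfl⟩
    have hD1 : (D : ℝ) ≤ Real.exp (k / 8) := by rw [hD]; exact Nat.floor_le (Real.exp_pos _).le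
    have hD2 : Real.exp (k / 8) < (D : ℝ) + 1 := by rw [hD]; exact Nat.lt_floor_add_one _
    have hDX : D ≤ X := by
      have h1 : (D : ℝ) ≤ X := by
        refine hD1.trans ?_
        rw [← Real.exp_log (show (0 : ℝ) < X by linarith), ← hl]
        apply Real.exp_le_exp.2
        linarith
      exact_mod_cast h1
    have hqp := three_quarter_pow k
    -- squares
    have hsq : ∀ d : ℤ, d ≠ 0 → |d| ≤ D →
        (((range X).filter (fun n => IsSquare ((u * (g : ℤ) ^ n + v) * d))).card : ℝ) ≤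
          2 * X * (3 / 4) ^ k := by
      intro d hd hdD
      obtain ⟨P, hP1, hP2, hP3, hP4⟩ := hG y (by rw [← hl]; exact hy1) hyX u v d hu hv hd
        huX hvX (hdD.trans (by exact_mod_cast hDX))
      have h1 := hP4 (fun p => -(jacobiSym d p : ℝ)) (fun p hp => by
        have hfact : Fact p.Prime := ⟨(hP1 p hp).1⟩
        have h2 : jacobiSym d p = 1 ∨ jacobiSym d p = -1 := by
          rw [← jacobiSym.legendreSym.to_jacobiSym]
          apply legendreSym.eq_one_or_neg_one
          intro h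
          exact (hP1 p hp).2.2.2 ((ZMod.intCast_zmod_eq_zero_iff_dvd _ p).1 h)
        rcases h2 with h2 | h2 <;> rw [h2] <;> norm_num)
      rw [← hl, ← hk] at h1
      refine le_trans ?_ h1
      have h2 : (range X).filter (fun n => IsSquare ((u * (g : ℤ) ^ n + v) * d)) ⊆
          (range X).filter (fun n => 4 * (P.filter (fun p =>
          -(jacobiSym d p : ℝ) * (jacobiSym (fv g u v n) p : ℝ) = 1)).card ≤ P.card) := by
        intro n hn
        rw [Finset.mem_filter] at hn ⊢
        refine ⟨hn.1, ?_⟩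
        obtain ⟨w, hw⟩ := hn.2
        have h3 : P.filter (fun p =>
            -(jacobiSym d p : ℝ) * (jacobiSym (fv g u v n) p : ℝ) = 1) = ∅ := by
          rw [Finset.filter_eq_empty_iff]
          intro p _ h4
          have h5 := jac_square_nonneg w p
          rw [← hw, jacobiSym.mul_left] at h5
          have h6 : (0 : ℝ) ≤ (jacobiSym (fv g u v n) p : ℝ) * (jacobiSym d p : ℝ) := by
            exact_mod_cast h5
          linarith
        rw [h3]
        simp
      exact_mod_cast Finset.card_le_card h2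
    obtain ⟨P, hP1, hP2, hP3, hP4⟩ := hG y (by rw [← hl]; exact hy1) hyX u v 1 hu hv one_ne_zero
      huX hvX hone
    have h1 := hP4 (fun _ => 1) (fun _ _ => Or.inl rfl)
    rw [← hl, ← hk] at h1
    set E1 := (range X).filter (fun n => 4 * (P.filter (fun p =>
        (1 : ℝ) * (jacobiSym (fv g u v n) p : ℝ) = 1)).card ≤ P.card) with hE1
    set E2 := ((Finset.Icc (-(D : ℤ)) D).erase 0).biUnion (fun d =>
      (range X).filter (fun n => IsSquare ((u * (g : ℤ) ^ n + v) * d))) with hE2
    have hE2c : (E2.card : ℝ) ≤ 2 * D * (2 * X * (3 / 4) ^ k) := by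
      have h2 : (E2.card : ℝ) ≤ ∑ d ∈ (Finset.Icc (-(D : ℤ)) D).erase 0,
          (((range X).filter (fun n => IsSquare ((u * (g : ℤ) ^ n + v) * d))).card : ℝ) := by
        exact_mod_cast Finset.card_biUnion_le
      refine h2.trans ?_
      have h3 : ∀ d ∈ (Finset.Icc (-(D : ℤ)) D).erase 0,
          (((range X).filter (fun n => IsSquare ((u * (g : ℤ) ^ n + v) * d))).card : ℝ) ≤
          2 * X * (3 / 4) ^ k := by
        intro d hd
        rw [Finset.mem_erase, Finset.mem_Icc] at hd
        exact hsq d hd.1 (abs_le.2 hd.2)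
      refine (Finset.sum_le_sum h3).trans ?_
      rw [Finset.sum_const, nsmul_eq_mul]
      apply mul_le_mul_of_nonneg_right _ (by positivity)
      have h4 : ((Finset.Icc (-(D : ℤ)) D).erase 0).card = 2 * D := by
        rw [Finset.card_erase_of_mem (by rw [Finset.mem_Icc]; omega), Int.card_Icc]
        omega
      rw [h4]
      push_cast
      exact le_rfl
    have hsub : {n : ℕ | n < X ∧ ¬ (u * (g : ℤ) ^ n + v ≠ 0 ∧ ∀ d : ℤ, Fund d →
        IsSquare ((u * (g : ℤ) ^ n + v) * d) → c' * (l ^ 2 / m) ≤ Nsplit d)} ⊆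
        ((E1 ∪ E2 : Finset ℕ) : Set ℕ) := by
      intro n hn
      obtain ⟨hnX, hn2⟩ := hn
      rw [Finset.mem_coe, Finset.mem_union]
      by_contra hcon
      rw [not_or] at hcon
      obtain ⟨hc1, hc2⟩ := hcon
      apply hn2
      have hA : ¬ (4 * (P.filter (fun p =>
          (1 : ℝ) * (jacobiSym (fv g u v n) p : ℝ) = 1)).card ≤ P.card) := by
        intro h2
        exact hc1 (by rw [hE1, Finset.mem_filter, Finset.mem_range]; exact ⟨hnX, h2⟩)
      set A := P.filter (fun p => (1 : ℝ) * (jacobiSym (fv g u v n) p : ℝ) = 1) with hAdef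
      have hAP : ∀ p ∈ A, p.Prime ∧ p ≤ y ∧ p ≠ 2 ∧ (jacobiSym (fv g u v n) p : ℝ) = 1 := by
        intro p hp
        rw [hAdef, Finset.mem_filter, one_mul] at hp
        exact ⟨(hP1 p hp.1).1, (hP1 p hp.1).2.1, (hP1 p hp.1).2.2.1, hp.2⟩
      have hAc : (P.card : ℝ) < 4 * A.card := by exact_mod_cast (not_le.1 hA)
      constructor
      · intro h0
        have hAne : A.Nonempty := by
          rw [← Finset.card_pos]
          have : (0 : ℝ) ≤ P.card := Nat.cast_nonneg _
          have : (0 : ℝ) < A.card := by linarith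
          exact_mod_cast this
        obtain ⟨p, hp⟩ := hAne
        obtain ⟨q1, _, _, q4⟩ := hAP p hp
        have hfact : Fact p.Prime := ⟨q1⟩
        have h3 : jacobiSym (fv g u v n) p = 0 := by
          rw [← jacobiSym.legendreSym.to_jacobiSym, legendreSym.eq_zero_iff]
          unfold fv
          rw [h0]
          simp
        rw [h3] at q4
        norm_num at q4
      · intro d hd hds
        have hd0 := hd.ne_zero
        have hdD : (D : ℤ) < |d| := by
          by_contra h2
          apply hc2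
          rw [hE2, Finset.mem_biUnion]
          refine ⟨d, ?_, ?_⟩
          · rw [Finset.mem_erase, Finset.mem_Icc]
            exact ⟨hd0, abs_le.1 (not_lt.1 h2)⟩
          · rw [Finset.mem_filter, Finset.mem_range]
            exact ⟨hnX, hds⟩
        have hdD2 : Real.exp (k / 8) < |(d : ℝ)| := by
          have h3 : (D : ℤ) + 1 ≤ |d| := by omega
          have h4 : ((D : ℝ) + 1) ≤ |(d : ℝ)| := by exact_mod_cast h3
          linarith
        have hlogd : (k : ℝ) / 8 < Real.log |(d : ℝ)| := by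
          rw [Real.lt_log_iff_exp_lt (by linarith [Real.exp_pos ((k : ℝ) / 8)])]
          exact hdD2
        obtain ⟨x, hx⟩ : ∃ x, x = Real.log |(d : ℝ)| := ⟨_, rfl⟩
        rw [← hx] at hlogd
        have hx17 : l / (17 * m) ≤ x := by
          have h3 : l / (17 * m) = (2 / 17) * (l / (2 * m)) := by
            field_simp
          rw [h3]
          nlinarith
        have hl17 : 0 < l / (17 * m) := by positivity
        have hx0 : 0 < x := by linarith
        have hlogx : m / 2 ≤ Real.log x := by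
          have h3 : Real.log (l / (17 * m)) ≤ Real.log x := Real.log_le_log hl17 hx17
          rw [Real.log_div hl0.ne' (by positivity), ← hm, Real.log_mul (by norm_num) hm0.ne'] at h3
          have h4 : Real.log 17 ≤ 17 := (Real.log_le_sub_one_of_pos (by norm_num)).trans (by norm_num)
          linarith
        have hth : (y : ℝ) < threshold d := by
          unfold threshold
          rw [← hx]
          have h3 : (l / (17 * m)) ^ 2 * (m / 2) ^ 2 ≤ x ^ 2 * Real.log x ^ 2 := by
            apply mul_le_mul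
            · exact pow_le_pow_left₀ hl17.le hx17 2
            · exact pow_le_pow_left₀ (by positivity) hlogx 2
            · positivity
            · positivity
          have h4 : (l / (17 * m)) ^ 2 * (m / 2) ^ 2 = l ^ 2 / 1156 := by
            field_simp
            norm_num
          rw [h4] at h3
          have h5 : l ^ 2 / 1200 < l ^ 2 / 1156 :=
            div_lt_div_of_pos_left (by positivity) (by norm_num) (by norm_num)
          linarith only [h3, h5, hy2]
        have h3 := card_le_N hd hds A hth hAP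
        have h4 : (A.card : ℝ) ≤ Nsplit d := by exact_mod_cast h3
        have h5 : c * (l ^ 2 / 4000 / m) ≤ P.card := by
          refine le_trans ?_ hP2
          apply mul_le_mul_of_nonneg_left _ hc.le
          calc l ^ 2 / 4000 / m = (l ^ 2 / 2000) / (2 * m) := by
                field_simp
                norm_num
            _ ≤ y / (2 * m) := div_le_div_of_nonneg_right hy1 (by positivity)
            _ ≤ y / Real.log y := div_le_div_of_nonneg_left (by linarith) hlogy0 hlogy
        have h6 : c' * (l ^ 2 / m) ≤ c / 16000 * (l ^ 2 / m) :=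
          mul_le_mul_of_nonneg_right hc'1 (by positivity)
        have h7 : c * (l ^ 2 / 4000 / m) = 4 * (c / 16000 * (l ^ 2 / m)) := by
          field_simp
          norm_num
        rw [h7] at h5
        linarith
    have hcard : (({n : ℕ | n < X ∧ ¬ (u * (g : ℤ) ^ n + v ≠ 0 ∧ ∀ d : ℤ, Fund d →
        IsSquare ((u * (g : ℤ) ^ n + v) * d) → c' * (l ^ 2 / m) ≤ Nsplit d)}).ncard : ℝ) ≤
        2 * X * (3 / 4) ^ k + 2 * D * (2 * X * (3 / 4) ^ k) := by
      have h2 := Set.ncard_le_ncard hsub (Finset.finite_toSet _)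
      rw [Set.ncard_coe_finset] at h2
      have h3 := Finset.card_union_le E1 E2
      have h4 : (({n : ℕ | n < X ∧ ¬ (u * (g : ℤ) ^ n + v ≠ 0 ∧ ∀ d : ℤ, Fund d →
        IsSquare ((u * (g : ℤ) ^ n + v) * d) → c' * (l ^ 2 / m) ≤ Nsplit d)}).ncard : ℝ) ≤
        E1.card + E2.card := by exact_mod_cast h2.trans h3
      linarith
    refine hcard.trans ?_
    have hXr : (0 : ℝ) < X := by linarith
    have h2 : 2 * (X : ℝ) * (3 / 4) ^ k + 2 * D * (2 * X * (3 / 4) ^ k) ≤
        6 * X * Real.exp (-(k / 8)) := by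
      have h3 : 2 * (X : ℝ) * (3 / 4) ^ k + 2 * D * (2 * X * (3 / 4) ^ k) =
          2 * X * ((1 + 2 * D) * (3 / 4) ^ k) := by ring
      rw [h3]
      have h4 : (1 : ℝ) ≤ Real.exp (k / 8) := Real.one_le_exp (by positivity)
      have h5 : (1 + 2 * (D : ℝ)) * (3 / 4) ^ k ≤ (3 * Real.exp (k / 8)) * Real.exp (-(k / 4)) := by
        apply mul_le_mul (by linarith) hqp (by positivity) (by positivity)
      have h6 : (3 * Real.exp ((k : ℝ) / 8)) * Real.exp (-(k / 4)) = 3 * Real.exp (-(k / 8)) := by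
        rw [mul_assoc, ← Real.exp_add]
        congr 2
        ring
      rw [h6] at h5
      nlinarith
    refine h2.trans ?_
    have h3 : 6 * Real.exp (-((k : ℝ) / 8)) ≤ Real.exp (-(c' * (l / m))) := by
      have h4 : (6 : ℝ) ≤ Real.exp 2 := by
        have h5 : Real.exp 2 = Real.exp 1 * Real.exp 1 := by
          rw [← Real.exp_add]
          norm_num
        have := Real.exp_one_gt_d9
        rw [h5]
        nlinarith
      calc 6 * Real.exp (-((k : ℝ) / 8)) ≤ Real.exp 2 * Real.exp (-((k : ℝ) / 8)) :=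
            mul_le_mul_of_nonneg_right h4 (Real.exp_pos _).le
        _ = Real.exp (2 + -((k : ℝ) / 8)) := (Real.exp_add _ _).symm
        _ ≤ _ := by
            apply Real.exp_le_exp.2
            have h5 : l / m = 2 * (l / (2 * m)) := by
              field_simp
            have h6 : c' * (l / m) ≤ 1 / 17 * (l / m) :=
              mul_le_mul_of_nonneg_right hc'2 (by positivity)
            rw [h5] at h6 ⊢
            linarith
    calc 6 * (X : ℝ) * Real.exp (-((k : ℝ) / 8)) = X * (6 * Real.exp (-((k : ℝ) / 8))) := by ring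
      _ ≤ _ := mul_le_mul_of_nonneg_left h3 hXr.le

end Pool.Agent.V8H10.EX
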